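import Pool.Agent.J6H21.UC.Steiner

set_option autoImplicit false

/-!
# Unit cubes touching a unit cube: the bound
-/

open MeasureTheory Set Metric

namespace Pool.Agent.J6H21.UC

/-- the unit cube `[0, 1]^3` -/
def K : Set E := {x | ∀ i, (0 : ℝ) ≤ x i ∧ x i ≤ 1}

/-- the unit cube `c + L [0, 1]^3` in any position and orientation: `L` is a linear isometry of the space -/
def cube (c : E) (L : E ≃ₗᵢ[ℝ] E) : Set E := (fun x => c + L x) '' K

/-- The unit cubes `c_i + L_i [0, 1]^3` and `K` have pairwise disjoint interiors, and the intersection of the boundaries of `K`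
and of each of the cubes has positive area (two-dimensional Hausdorff measure). -/
def Admissible (k : ℕ) (c : Fin k → E) (L : Fin k → (E ≃ₗᵢ[ℝ] E)) : Prop :=
  (∀ i, Disjoint (interior K) (interior (cube (c i) (L i)))) ∧
  (∀ i j, i ≠ j → Disjoint (interior (cube (c i) (L i))) (interior (cube (c j) (L j)))) ∧
  ∀ i, 0 < (Measure.hausdorffMeasure 2 : Measure E) (frontier K ∩ frontier (cube (c i) (L i)))

/-- the largest number of cubes of an admissible family -/
noncomputable def N : ℕ := sSup {k | ∃ c L, Admissible k c L}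

theorem isClosed_K : IsClosed K := by
  have : K = ⋂ i, ({x : E | (0 : ℝ) ≤ x i} ∩ {x : E | x i ≤ 1}) := by
    ext x; simp [K]
  rw [this]
  have hc : ∀ i : Fin 3, Continuous fun x : E => x i := fun i => by fun_prop
  exact isClosed_iInter fun i => (isClosed_le continuous_const (hc i)).inter (isClosed_le (hc i) continuous_const)

theorem convex_K : Convex ℝ K := by
  intro x hx y hy a b ha hb hab i
  have e : (a • x + b • y) i = a * x i + b * y i := by simp
  rw [e]
  have h1 := hx i
  have h2 := hy i
  constructor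
  · nlinarith [mul_nonneg ha h1.1, mul_nonneg hb h2.1]
  · nlinarith [mul_le_mul_of_nonneg_left h1.2 ha, mul_le_mul_of_nonneg_left h2.2 hb]

theorem convex_cube (c : E) (L : E ≃ₗᵢ[ℝ] E) : Convex ℝ (cube c L) := by
  have h1 : cube c L = (fun x => c + x) '' (L '' K) := by
    unfold cube
    rw [image_image]
  rw [h1]
  exact (convex_K.linear_image L.toLinearEquiv.toLinearMap).translate c

theorem isClosed_cube (c : E) (L : E ≃ₗᵢ[ℝ] E) : IsClosed (cube c L) := by
  have h1 : cube c L = (Homeomorph.addLeft c) '' (L.toHomeomorph '' K) := by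
    unfold cube
    rw [image_image]
    rfl
  rw [h1]
  exact (Homeomorph.isClosed_image _).2 ((Homeomorph.isClosed_image _).2 isClosed_K)

/-- a point of the cube sees at least the volume `π / 6` of the cube within the distance `1` -/
theorem K_ball {q : E} (hq : q ∈ K) : ENNReal.ofReal (Real.pi * 4 / 3) ≤ 8 * volume (K ∩ closedBall q 1) := by
  have h1 := ball_slabs (a := fun i => q i) hq
  refine h1.trans (mul_le_mul' le_rfl ?_)
  rw [← measure_preimage_add_right volume q (K ∩ closedBall q 1)]
  refine measure_mono ?_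
  rintro x ⟨⟨⟨hx, h2⟩, h3⟩, h4⟩
  refine ⟨?_, ?_⟩
  · have key : ∀ i, x ∈ slab i (q i) → (0 : ℝ) ≤ (x + q) i ∧ (x + q) i ≤ 1 := by
      intro i hi
      have e : (x + q) i = x i + q i := rfl
      rw [e]
      exact ⟨by linarith [hi.1], by linarith [hi.2]⟩
    intro i
    fin_cases i
    · exact key 0 h2
    · exact key 1 h3
    · exact key 2 h4
  · show x + q ∈ closedBall q 1
    rw [mem_closedBall, dist_eq_norm, add_sub_cancel_right]
    rwa [mem_closedBall_zero_iff] at hx

theorem cube_ball {c : E} {L : E ≃ₗᵢ[ℝ] E} {p : E} (hp : p ∈ cube c L) :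
    ENNReal.ofReal (Real.pi * 4 / 3) ≤ 8 * volume (interior (cube c L) ∩ closedBall p 1) := by
  obtain ⟨q, hq, rfl⟩ := hp
  have hmp : MeasurePreserving (fun x => c + L x) (volume : Measure E) volume :=
    (measurePreserving_add_left volume c).comp L.measurePreserving
  have hms : MeasurableSet (cube c L ∩ closedBall (c + L q) 1) :=
    (isClosed_cube c L).measurableSet.inter measurableSet_closedBall
  have h1 : volume (K ∩ closedBall q 1) ≤ volume (cube c L ∩ closedBall (c + L q) 1) := by
    rw [← hmp.measure_preimage hms.nullMeasurableSet]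
    refine measure_mono ?_
    rintro x ⟨hx, hx2⟩
    refine ⟨⟨x, hx, rfl⟩, ?_⟩
    show c + L x ∈ closedBall (c + L q) 1
    rw [mem_closedBall, dist_add_left, L.dist_map]
    exact hx2
  have h2 : volume (cube c L ∩ closedBall (c + L q) 1) ≤ volume (interior (cube c L) ∩ closedBall (c + L q) 1) := by
    have h3 : cube c L ∩ closedBall (c + L q) 1 ⊆
        (interior (cube c L) ∩ closedBall (c + L q) 1) ∪ frontier (cube c L) := by
      rintro x ⟨hx, hx2⟩
      by_cases h : x ∈ interior (cube c L)
      · exact Or.inl ⟨h, hx2⟩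
      · exact Or.inr ⟨subset_closure hx, h⟩
    refine (measure_mono h3).trans ((measure_union_le _ _).trans ?_)
    rw [(convex_cube c L).addHaar_frontier volume, add_zero]
  exact (K_ball hq).trans (mul_le_mul' le_rfl (h1.trans h2))

theorem vol_int_K : 1 ≤ volume (interior K) := by
  have h1 : volume K = 1 := by
    have := vol_box 0 1
    rw [show ENNReal.ofReal (1 - 0) ^ 3 = 1 by simp] at this
    exact this
  have h3 : K ⊆ interior K ∪ frontier K := by
    intro x hx
    by_cases h : x ∈ interior K
    · exact Or.inl h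
    · exact Or.inr ⟨subset_closure hx, h⟩
  have h2 : volume K ≤ volume (interior K) := by
    refine (measure_mono h3).trans ((measure_union_le _ _).trans ?_)
    rw [convex_K.addHaar_frontier volume, add_zero]
  rwa [h1] at h2

theorem ex_le {t s : ℝ} (hs : 0 ≤ s ∧ s ≤ 1) : ex t ^ 2 ≤ (t - s) ^ 2 := by
  rcases lt_or_ge t 0 with h | h
  · rw [ex_neg h]; nlinarith
  · rcases lt_or_ge 1 t with h' | h'
    · rw [ex_big h']; nlinarith
    · have : ex t = 0 := by
        unfold ex
        rw [max_eq_right]
        exact max_le (by linarith) (by linarith)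
      rw [this]; nlinarith [sq_nonneg (t - s)]

/-- the points at distance at most `1` from a point of `K` -/
theorem ball_sub {p : E} (hp : p ∈ K) : closedBall p 1 ⊆ A ![.full, .full, .full] := by
  intro x hx
  refine ⟨fun j => by fin_cases j <;> trivial, ?_⟩
  show ex (x 0) ^ 2 + ex (x 1) ^ 2 + ex (x 2) ^ 2 ≤ 1
  rw [mem_closedBall, EuclideanSpace.dist_eq, Real.sqrt_le_one, Fin.sum_univ_three] at hx
  simp only [Real.dist_eq, sq_abs] at hx
  linarith [ex_le (t := x 0) (hp 0), ex_le (t := x 1) (hp 1), ex_le (t := x 2) (hp 2)]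

theorem bound {k : ℕ} {c : Fin k → E} {L : Fin k → (E ≃ₗᵢ[ℝ] E)} (h : Admissible k c L) : k ≤ 37 := by
  obtain ⟨h1, h2, h3⟩ := h
  -- common points
  have hp : ∀ i, ∃ p, p ∈ K ∧ p ∈ cube (c i) (L i) := by
    intro i
    obtain ⟨p, hp1, hp2⟩ := nonempty_of_measure_ne_zero (h3 i).ne'
    refine ⟨p, ?_, ?_⟩
    · exact isClosed_K.frontier_subset hp1
    · exact (isClosed_cube _ _).frontier_subset hp2
  choose p hpK hpC using hp
  set U : Fin k → Set E := fun i => interior (cube (c i) (L i)) ∩ closedBall (p i) 1 with hU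
  have hUm : ∀ i, MeasurableSet (U i) := fun i => isOpen_interior.measurableSet.inter measurableSet_closedBall
  have hUd : Pairwise (Function.onFun Disjoint U) := by
    intro i j hij
    exact (h2 i j hij).mono inter_subset_left inter_subset_left
  have hsum : volume (⋃ i, U i) = ∑ i, volume (U i) := by
    rw [measure_iUnion hUd hUm, tsum_fintype]
  have hKd : Disjoint (interior K) (⋃ i, U i) := by
    rw [disjoint_iUnion_right]
    exact fun i => (h1 i).mono le_rfl inter_subset_left
  have hK0 : K ⊆ A ![.full, .full, .full] := by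
    intro x hx
    exact ball_sub hx (mem_closedBall_self zero_le_one)
  have htot : volume (interior K) + ∑ i, volume (U i) ≤
      7 + 3 * ENNReal.ofReal Real.pi + ENNReal.ofReal (Real.pi * 4 / 3) := by
    rw [← hsum, ← measure_union hKd (MeasurableSet.iUnion hUm)]
    refine (measure_mono ?_).trans vol_steiner
    refine union_subset (interior_subset.trans hK0) (iUnion_subset fun i => ?_)
    exact inter_subset_right.trans (ball_sub (hpK i))
  have hlow : (k : ENNReal) * ENNReal.ofReal (Real.pi * 4 / 3) ≤ 8 * ∑ i, volume (U i) := by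
    rw [Finset.mul_sum]
    calc (k : ENNReal) * ENNReal.ofReal (Real.pi * 4 / 3) = ∑ _i : Fin k, ENNReal.ofReal (Real.pi * 4 / 3) := by simp
      _ ≤ _ := Finset.sum_le_sum fun i _ => cube_ball (hpC i)
  have hfin : 8 + (k : ENNReal) * ENNReal.ofReal (Real.pi * 4 / 3) ≤
      8 * (7 + 3 * ENNReal.ofReal Real.pi + ENNReal.ofReal (Real.pi * 4 / 3)) := by
    calc 8 + (k : ENNReal) * ENNReal.ofReal (Real.pi * 4 / 3) ≤ 8 * volume (interior K) + 8 * ∑ i, volume (U i) := by
          refine add_le_add ?_ hlow
          calc (8 : ENNReal) = 8 * 1 := by norm_num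
            _ ≤ _ := mul_le_mul' le_rfl vol_int_K
      _ = 8 * (volume (interior K) + ∑ i, volume (U i)) := by ring
      _ ≤ _ := mul_le_mul' le_rfl htot
  have hpi := Real.pi_gt_d2
  have hreal : 8 + (k : ℝ) * (Real.pi * 4 / 3) ≤ 8 * (7 + 3 * Real.pi + Real.pi * 4 / 3) := by
    have e1 : 8 + (k : ENNReal) * ENNReal.ofReal (Real.pi * 4 / 3) = ENNReal.ofReal (8 + (k : ℝ) * (Real.pi * 4 / 3)) := by
      rw [ENNReal.ofReal_add (by norm_num) (by positivity), ENNReal.ofReal_mul (by positivity)]
      simp
    have e2 : 8 * (7 + 3 * ENNReal.ofReal Real.pi + ENNReal.ofReal (Real.pi * 4 / 3)) =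
        ENNReal.ofReal (8 * (7 + 3 * Real.pi + Real.pi * 4 / 3)) := by
      rw [ENNReal.ofReal_mul (by norm_num), ENNReal.ofReal_add (by positivity) (by positivity),
        ENNReal.ofReal_add (by norm_num) (by positivity), ENNReal.ofReal_mul (by norm_num)]
      simp
    rw [e1, e2, ENNReal.ofReal_le_ofReal_iff (by positivity)] at hfin
    exact hfin
  by_contra hk
  have hk' : (38 : ℝ) ≤ k := by exact_mod_cast (show 38 ≤ k by omega)
  nlinarith

theorem N_le : N ≤ 37 := csSup_le' fun _ ⟨_, _, h⟩ => bound h

end Pool.Agent.J6H21.UC
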