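import Pool.Agent.J6H21.UC.Vol

set_option autoImplicit false

/-!
# Unit cubes touching a unit cube: the volume of the neighbourhood of a cube
-/

open MeasureTheory Set Metric

namespace Pool.Agent.J6H21.UC

/-- the distance of `t` to the interval `[0, 1]` -/
noncomputable def ex (t : ℝ) : ℝ := max (max (-t) (t - 1)) 0

theorem ex_neg {t : ℝ} (h : t < 0) : ex t = -t := by
  unfold ex
  rw [max_eq_left (by linarith : t - 1 ≤ -t), max_eq_left (by linarith)]

theorem ex_big {t : ℝ} (h : 1 < t) : ex t = t - 1 := by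
  unfold ex
  rw [max_eq_right (by linarith : -t ≤ t - 1), max_eq_left (by linarith)]

/-- the three kinds of coordinates -/
inductive Mode : Type
  | full : Mode
  | mid : Mode
  | out : Mode

/-- the part of the sum of squares -/
noncomputable def exc : Mode → ℝ → ℝ
  | .full, t => ex t
  | .mid, _ => 0
  | .out, t => t

/-- the range of the coordinate -/
def dom : Mode → Set ℝ
  | .full => univ
  | .mid => Icc 0 1
  | .out => Ioi 0

theorem meas_dom (m : Mode) : MeasurableSet (dom m) := by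
  cases m
  · exact MeasurableSet.univ
  · exact measurableSet_Icc
  · exact measurableSet_Ioi

theorem meas_exc (m : Mode) : Measurable (exc m) := by
  cases m
  · show Measurable fun t => ex t
    unfold ex; fun_prop
  · exact measurable_const
  · exact measurable_id

/-- the sets -/
def A (m : Fin 3 → Mode) : Set E :=
  {x | (∀ j, x j ∈ dom (m j)) ∧ exc (m 0) (x 0) ^ 2 + exc (m 1) (x 1) ^ 2 + exc (m 2) (x 2) ^ 2 ≤ 1}

theorem meas_A (m : Fin 3 → Mode) : MeasurableSet (A m) := by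
  have h1 : MeasurableSet {x : E | ∀ j, x j ∈ dom (m j)} := by
    have : {x : E | ∀ j, x j ∈ dom (m j)} = ⋂ j, (fun x : E => x j) ⁻¹' dom (m j) := by ext x; simp
    rw [this]
    exact MeasurableSet.iInter fun j => (meas_coord j) (meas_dom _)
  have h2 : MeasurableSet {x : E | exc (m 0) (x 0) ^ 2 + exc (m 1) (x 1) ^ 2 + exc (m 2) (x 2) ^ 2 ≤ 1} := by
    refine measurableSet_le ?_ measurable_const
    exact ((((meas_exc _).comp (meas_coord 0)).pow_const 2).add (((meas_exc _).comp (meas_coord 1)).pow_const 2)).add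
      (((meas_exc _).comp (meas_coord 2)).pow_const 2)
  exact h1.inter h2

/-- the same as a sum over all coordinates -/
theorem mem_A {m : Fin 3 → Mode} {x : E} :
    x ∈ A m ↔ (∀ j, x j ∈ dom (m j)) ∧ ∑ j, exc (m j) (x j) ^ 2 ≤ 1 := by
  rw [Fin.sum_univ_three]; rfl

theorem sum_update {m : Fin 3 → Mode} {i : Fin 3} {a : Mode} {x y : E} (h : exc a (y i) ^ 2 ≤ exc (m i) (x i) ^ 2)
    (hj : ∀ j, j ≠ i → y j = x j) :
    ∑ j, exc (Function.update m i a j) (y j) ^ 2 ≤ ∑ j, exc (m j) (x j) ^ 2 := by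
  refine Finset.sum_le_sum fun j _ => ?_
  by_cases hji : j = i
  · subst hji; rw [Function.update_self]; exact h
  · rw [Function.update_of_ne hji, hj j hji]

theorem dom_update {m : Fin 3 → Mode} {i : Fin 3} {a : Mode} {x y : E} (hx : ∀ j, x j ∈ dom (m j)) (h : y i ∈ dom a)
    (hj : ∀ j, j ≠ i → y j = x j) : ∀ j, y j ∈ dom (Function.update m i a j) := by
  intro j
  by_cases hji : j = i
  · subst hji; rw [Function.update_self]; exact h
  · rw [Function.update_of_ne hji, hj j hji]; exact hx j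

theorem split {m : Fin 3 → Mode} {i : Fin 3} (hi : m i = .full) :
    volume (A m) ≤ volume (A (Function.update m i .mid)) + 2 * volume (A (Function.update m i .out)) := by
  have h1 : A m ⊆ A (Function.update m i .mid) ∪ (refl i 0 ⁻¹' (A (Function.update m i .out)) ∪
      refl i 1 ⁻¹' (refl i 0 ⁻¹' (A (Function.update m i .out)))) := by
    intro x hx
    obtain ⟨hd, hs⟩ := mem_A.1 hx
    rcases lt_or_ge (x i) 0 with h | h
    · right; left
      refine mem_A.2 ⟨dom_update hd ?_ fun j hj => refl_ne hj _ _, (sum_update ?_ fun j hj => refl_ne hj _ _).trans hs⟩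
      · show 0 < refl i 0 x i
        rw [refl_same]; linarith
      · rw [hi]
        show refl i 0 x i ^ 2 ≤ ex (x i) ^ 2
        rw [refl_same, ex_neg h, zero_sub]
    · rcases lt_or_ge 1 (x i) with h' | h'
      · right; right
        have e : ∀ j, j ≠ i → refl i 0 (refl i 1 x) j = x j := fun j hj => by rw [refl_ne hj, refl_ne hj]
        have e2 : refl i 0 (refl i 1 x) i = x i - 1 := by rw [refl_same, refl_same]; ring
        refine mem_A.2 ⟨dom_update hd ?_ e, (sum_update ?_ e).trans hs⟩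
        · show 0 < refl i 0 (refl i 1 x) i
          rw [e2]; linarith
        · rw [hi]
          show refl i 0 (refl i 1 x) i ^ 2 ≤ ex (x i) ^ 2
          rw [e2, ex_big h']
      · left
        refine mem_A.2 ⟨dom_update hd ⟨h, h'⟩ fun j _ => rfl, (sum_update ?_ fun j _ => rfl).trans hs⟩
        show (0 : ℝ) ^ 2 ≤ _
        rw [zero_pow two_ne_zero]
        exact sq_nonneg _
  refine (measure_mono h1).trans ((measure_union_le _ _).trans ?_)
  gcongr
  refine (measure_union_le _ _).trans ?_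
  have hm := meas_A (Function.update m i .out)
  rw [refl_preimage i 1 ((refl_mp i 0).measurable hm), refl_preimage i 0 hm, two_mul]

/-- the coordinates `≥ 0` of a symmetric set are at most a half of it -/
theorem le_half {i : Fin 3} {S : Set E} (hSm : MeasurableSet S) (hS : ∀ x ∈ S, refl i 0 x ∈ S) :
    2 * volume (S ∩ {x | 0 < x i}) ≤ volume S := by
  have hm1 : MeasurableSet {x : E | 0 < x i} := measurableSet_lt measurable_const (meas_coord i)
  have hm := hSm.inter hm1
  rw [two_mul]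
  nth_rewrite 2 [← refl_preimage i 0 hm]
  rw [← measure_union ?_ ((refl_mp i 0).measurable hm)]
  · refine measure_mono ?_
    rintro x (⟨hx, _⟩ | ⟨hx, _⟩)
    · exact hx
    · have h2 := hS _ hx
      have e : refl i 0 (refl i 0 x) = x := by
        ext j
        by_cases hj : j = i
        · subst hj; rw [refl_same, refl_same]; ring
        · rw [refl_ne hj, refl_ne hj]
      rwa [e] at h2
  · rw [Set.disjoint_left]
    rintro x ⟨_, h2⟩ ⟨_, h3⟩
    have h2' : 0 < x i := h2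
    have h3' : 0 < refl i 0 x i := h3
    rw [refl_same] at h3'
    linarith

/-- the volume of a box -/
theorem vol_box (a b : ℝ) : volume {x : E | ∀ i, a ≤ x i ∧ x i ≤ b} = ENNReal.ofReal (b - a) ^ 3 := by
  have h1 : {x : E | ∀ i, a ≤ x i ∧ x i ≤ b} = WithLp.ofLp ⁻¹' (Icc (fun _ : Fin 3 => a) (fun _ => b)) := by
    ext x
    simp only [mem_ofPred_eq, mem_preimage, mem_Icc, Pi.le_def]
    exact ⟨fun h => ⟨fun i => (h i).1, fun i => (h i).2⟩, fun h i => ⟨h.1 i, h.2 i⟩⟩
  rw [h1, (PiLp.volume_preserving_ofLp (Fin 3)).measure_preimage measurableSet_Icc.nullMeasurableSet, Real.volume_Icc_pi]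
  simp

/-- the volume of a cylinder -/
theorem vol_cyl (c : Fin 3) :
    volume {x : E | x c ∈ Icc (0 : ℝ) 1 ∧ x (c.succAbove 0) ^ 2 + x (c.succAbove 1) ^ 2 ≤ 1} ≤ ENNReal.ofReal Real.pi := by
  have hmdisc : MeasurableSet {y : Fin 2 → ℝ | y 0 ^ 2 + y 1 ^ 2 ≤ 1} :=
    measurableSet_le (by fun_prop) measurable_const
  have h1 : {x : E | x c ∈ Icc (0 : ℝ) 1 ∧ x (c.succAbove 0) ^ 2 + x (c.succAbove 1) ^ 2 ≤ 1} =
      WithLp.ofLp ⁻¹' ((MeasurableEquiv.piFinSuccAbove (fun _ : Fin 3 => ℝ) c) ⁻¹'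
        ((Icc (0 : ℝ) 1) ×ˢ {y : Fin 2 → ℝ | y 0 ^ 2 + y 1 ^ 2 ≤ 1})) := by
    ext x
    rfl
  have hm : MeasurableSet ((Icc (0 : ℝ) 1) ×ˢ {y : Fin 2 → ℝ | y 0 ^ 2 + y 1 ^ 2 ≤ 1}) := measurableSet_Icc.prod hmdisc
  have h2 : volume {y : Fin 2 → ℝ | y 0 ^ 2 + y 1 ^ 2 ≤ 1} = ENNReal.ofReal Real.pi := by
    rw [← (PiLp.volume_preserving_ofLp (Fin 2)).measure_preimage hmdisc.nullMeasurableSet]
    have h3 : (WithLp.ofLp ⁻¹' {y : Fin 2 → ℝ | y 0 ^ 2 + y 1 ^ 2 ≤ 1} : Set (EuclideanSpace ℝ (Fin 2))) =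
        closedBall 0 1 := by
      ext x
      rw [mem_closedBall_zero_iff, ← sq_le_one_iff₀ (norm_nonneg x), EuclideanSpace.norm_sq_eq, Fin.sum_univ_two]
      simp only [Real.norm_eq_abs, sq_abs]
      rfl
    rw [h3, EuclideanSpace.volume_closedBall_fin_two]
    simp
  rw [h1, (PiLp.volume_preserving_ofLp (Fin 3)).measure_preimage
    ((MeasurableEquiv.piFinSuccAbove (fun _ : Fin 3 => ℝ) c).measurable hm).nullMeasurableSet,
    (volume_preserving_piFinSuccAbove (fun _ : Fin 3 => ℝ) c).measure_preimage hm.nullMeasurableSet,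
    Measure.volume_eq_prod, Measure.prod_prod, h2, Real.volume_Icc]
  simp

theorem upd0 (a b c d : Mode) : Function.update ![a, b, c] 0 d = ![d, b, c] := by
  funext j; fin_cases j <;> rfl

theorem upd1 (a b c d : Mode) : Function.update ![a, b, c] 1 d = ![a, d, c] := by
  funext j; fin_cases j <;> rfl

theorem upd2 (a b c d : Mode) : Function.update ![a, b, c] 2 d = ![a, b, d] := by
  funext j; fin_cases j <;> rfl

/-- the volume of `A ![a, b, c]` -/
noncomputable def v (a b c : Mode) : ENNReal := volume (A ![a, b, c])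

theorem s0 (b c : Mode) : v .full b c ≤ v .mid b c + 2 * v .out b c := by
  have := split (m := ![.full, b, c]) (i := 0) rfl
  rwa [upd0, upd0] at this

theorem s1 (a c : Mode) : v a .full c ≤ v a .mid c + 2 * v a .out c := by
  have := split (m := ![a, .full, c]) (i := 1) rfl
  rwa [upd1, upd1] at this

theorem s2 (a b : Mode) : v a b .full ≤ v a b .mid + 2 * v a b .out := by
  have := split (m := ![a, b, .full]) (i := 2) rfl
  rwa [upd2, upd2] at this

theorem v_le_one {a b c : Mode} (ha : a ≠ .full) (hb : b ≠ .full) (hc : c ≠ .full) : v a b c ≤ 1 := by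
  have h1 : A ![a, b, c] ⊆ {x : E | ∀ i, (0 : ℝ) ≤ x i ∧ x i ≤ 1} := by
    intro x hx
    obtain ⟨hd, hs⟩ := hx
    have d0 : x 0 ∈ dom a := hd 0
    have d1 : x 1 ∈ dom b := hd 1
    have d2 : x 2 ∈ dom c := hd 2
    have hs' : exc a (x 0) ^ 2 + exc b (x 1) ^ 2 + exc c (x 2) ^ 2 ≤ 1 := hs
    have key : ∀ (w : Mode) (t : ℝ), w ≠ .full → t ∈ dom w → exc w t ^ 2 ≤ 1 → 0 ≤ t ∧ t ≤ 1 := by
      intro w t hw ht h2
      cases w
      · exact absurd rfl hw
      · exact ht
      · have ht' : 0 < t := ht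
        have h2' : t ^ 2 ≤ 1 := h2
        exact ⟨ht'.le, by nlinarith⟩
    have q0 := sq_nonneg (exc a (x 0))
    have q1 := sq_nonneg (exc b (x 1))
    have q2 := sq_nonneg (exc c (x 2))
    have k0 := key a (x 0) ha d0 (by linarith)
    have k1 := key b (x 1) hb d1 (by linarith)
    have k2 := key c (x 2) hc d2 (by linarith)
    intro i
    fin_cases i
    · exact k0
    · exact k1
    · exact k2
  refine (measure_mono h1).trans ?_
  rw [vol_box]
  simp

theorem two_out {c : Fin 3} {S : Set E}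
    (hS : S ⊆ {x : E | x c ∈ Icc (0 : ℝ) 1 ∧ x (c.succAbove 0) ^ 2 + x (c.succAbove 1) ^ 2 ≤ 1} ∩
      {x | 0 < x (c.succAbove 0)} ∩ {x | 0 < x (c.succAbove 1)}) : 4 * volume S ≤ ENNReal.ofReal Real.pi := by
  have hn1 : c ≠ c.succAbove 0 := (Fin.succAbove_ne c 0).symm
  have hn2 : c ≠ c.succAbove 1 := (Fin.succAbove_ne c 1).symm
  have hn3 : c.succAbove 1 ≠ c.succAbove 0 := fun h => by
    have := Fin.succAbove_right_injective h
    exact absurd this (by decide)
  have hm : MeasurableSet {x : E | x c ∈ Icc (0 : ℝ) 1 ∧ x (c.succAbove 0) ^ 2 + x (c.succAbove 1) ^ 2 ≤ 1} := by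
    have h1 : MeasurableSet {x : E | x c ∈ Icc (0 : ℝ) 1} := (meas_coord c) measurableSet_Icc
    have h2 : MeasurableSet {x : E | x (c.succAbove 0) ^ 2 + x (c.succAbove 1) ^ 2 ≤ 1} :=
      measurableSet_le (((meas_coord _).pow_const 2).add ((meas_coord _).pow_const 2)) measurable_const
    exact h1.inter h2
  have hm1 : MeasurableSet {x : E | 0 < x (c.succAbove 0)} := measurableSet_lt measurable_const (meas_coord _)
  have h1 := le_half (i := c.succAbove 0) hm fun x hx => by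
    obtain ⟨h2, h3⟩ := hx
    refine ⟨?_, ?_⟩
    · rw [refl_ne hn1]; exact h2
    · rw [refl_same, refl_ne hn3]
      linarith [sq (0 - x (c.succAbove 0)), sq (x (c.succAbove 0))]
  have h2 := le_half (i := c.succAbove 1) (hm.inter hm1) fun x hx => by
    obtain ⟨⟨h2, h3⟩, h4⟩ := hx
    refine ⟨⟨?_, ?_⟩, ?_⟩
    · rw [refl_ne hn2]; exact h2
    · rw [refl_same, refl_ne hn3.symm]
      linarith [sq (0 - x (c.succAbove 1)), sq (x (c.succAbove 1))]
    · show 0 < refl (c.succAbove 1) 0 x (c.succAbove 0)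
      rw [refl_ne hn3.symm]
      exact h4
  calc 4 * volume S = 2 * (2 * volume S) := by rw [← mul_assoc]; norm_num
    _ ≤ 2 * (2 * volume ({x : E | x c ∈ Icc (0 : ℝ) 1 ∧ x (c.succAbove 0) ^ 2 + x (c.succAbove 1) ^ 2 ≤ 1} ∩
      {x | 0 < x (c.succAbove 0)} ∩ {x | 0 < x (c.succAbove 1)})) :=
        mul_le_mul' le_rfl (mul_le_mul' le_rfl (measure_mono hS))
    _ ≤ 2 * volume ({x : E | x c ∈ Icc (0 : ℝ) 1 ∧ x (c.succAbove 0) ^ 2 + x (c.succAbove 1) ^ 2 ≤ 1} ∩
      {x | 0 < x (c.succAbove 0)}) := mul_le_mul' le_rfl h2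
    _ ≤ volume {x : E | x c ∈ Icc (0 : ℝ) 1 ∧ x (c.succAbove 0) ^ 2 + x (c.succAbove 1) ^ 2 ≤ 1} := h1
    _ ≤ _ := vol_cyl c

theorem v_moo : 4 * v .mid .out .out ≤ ENNReal.ofReal Real.pi := by
  refine two_out (c := 0) ?_
  rintro x ⟨hd, hs⟩
  have hs' : (0 : ℝ) ^ 2 + x 1 ^ 2 + x 2 ^ 2 ≤ 1 := hs
  refine ⟨⟨⟨hd 0, ?_⟩, hd 1⟩, hd 2⟩
  show x 1 ^ 2 + x 2 ^ 2 ≤ 1
  linarith

theorem v_omo : 4 * v .out .mid .out ≤ ENNReal.ofReal Real.pi := by
  refine two_out (c := 1) ?_
  rintro x ⟨hd, hs⟩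
  have hs' : x 0 ^ 2 + (0 : ℝ) ^ 2 + x 2 ^ 2 ≤ 1 := hs
  refine ⟨⟨⟨hd 1, ?_⟩, hd 0⟩, hd 2⟩
  show x 0 ^ 2 + x 2 ^ 2 ≤ 1
  linarith

theorem v_oom : 4 * v .out .out .mid ≤ ENNReal.ofReal Real.pi := by
  refine two_out (c := 2) ?_
  rintro x ⟨hd, hs⟩
  have hs' : x 0 ^ 2 + x 1 ^ 2 + (0 : ℝ) ^ 2 ≤ 1 := hs
  refine ⟨⟨⟨hd 2, ?_⟩, hd 0⟩, hd 1⟩
  show x 0 ^ 2 + x 1 ^ 2 ≤ 1
  linarith

theorem v_ooo : 8 * v .out .out .out ≤ ENNReal.ofReal (Real.pi * 4 / 3) := by
  have hB : MeasurableSet (closedBall (0 : E) 1) := measurableSet_closedBall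
  have hp : ∀ i : Fin 3, MeasurableSet {x : E | 0 < x i} := fun i => measurableSet_lt measurable_const (meas_coord i)
  have h0 : volume (closedBall (0 : E) 1) = ENNReal.ofReal (Real.pi * 4 / 3) := by
    rw [EuclideanSpace.volume_closedBall_fin_three]
    simp
  have h1 : 2 * volume (closedBall (0 : E) 1 ∩ {x | 0 < x 0}) ≤ volume (closedBall (0 : E) 1) := by
    refine le_half hB fun x hx => ?_
    rw [mem_ball_iff] at hx ⊢
    rw [refl_same, refl_ne (by decide), refl_ne (by decide)]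
    linarith [sq (0 - x 0), sq (x 0)]
  have h2 : 2 * volume (closedBall (0 : E) 1 ∩ {x | 0 < x 0} ∩ {x | 0 < x 1}) ≤
      volume (closedBall (0 : E) 1 ∩ {x | 0 < x 0}) := by
    refine le_half (hB.inter (hp 0)) fun x hx => ⟨?_, ?_⟩
    · have := hx.1
      rw [mem_ball_iff] at this ⊢
      rw [refl_same, refl_ne (by decide), refl_ne (by decide)]
      linarith [sq (0 - x 1), sq (x 1)]
    · show 0 < refl 1 0 x 0
      rw [refl_ne (by decide)]
      exact hx.2
  have h3 : 2 * volume (closedBall (0 : E) 1 ∩ {x | 0 < x 0} ∩ {x | 0 < x 1} ∩ {x | 0 < x 2}) ≤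
      volume (closedBall (0 : E) 1 ∩ {x | 0 < x 0} ∩ {x | 0 < x 1}) := by
    refine le_half ((hB.inter (hp 0)).inter (hp 1)) fun x hx => ⟨⟨?_, ?_⟩, ?_⟩
    · have := hx.1.1
      rw [mem_ball_iff] at this ⊢
      rw [refl_same, refl_ne (by decide), refl_ne (by decide)]
      linarith [sq (0 - x 2), sq (x 2)]
    · show 0 < refl 2 0 x 0
      rw [refl_ne (by decide)]
      exact hx.1.2
    · show 0 < refl 2 0 x 1
      rw [refl_ne (by decide)]
      exact hx.2
  have h4 : A ![.out, .out, .out] ⊆ closedBall (0 : E) 1 ∩ {x | 0 < x 0} ∩ {x | 0 < x 1} ∩ {x | 0 < x 2} := by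
    rintro x ⟨hd, hs⟩
    exact ⟨⟨⟨(mem_ball_iff x).2 hs, hd 0⟩, hd 1⟩, hd 2⟩
  calc 8 * v .out .out .out = 2 * (2 * (2 * v .out .out .out)) := by
        rw [← mul_assoc, ← mul_assoc]; norm_num
    _ ≤ 2 * (2 * (2 * volume (closedBall (0 : E) 1 ∩ {x | 0 < x 0} ∩ {x | 0 < x 1} ∩ {x | 0 < x 2}))) :=
        mul_le_mul' le_rfl (mul_le_mul' le_rfl (mul_le_mul' le_rfl (measure_mono h4)))
    _ ≤ 2 * (2 * volume (closedBall (0 : E) 1 ∩ {x | 0 < x 0} ∩ {x | 0 < x 1})) :=
        mul_le_mul' le_rfl (mul_le_mul' le_rfl h3)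
    _ ≤ 2 * volume (closedBall (0 : E) 1 ∩ {x | 0 < x 0}) := mul_le_mul' le_rfl h2
    _ ≤ volume (closedBall (0 : E) 1) := h1
    _ = _ := h0

/-- **Steiner's formula** for the unit cube (an upper bound) -/
theorem vol_steiner : v .full .full .full ≤ 7 + 3 * ENNReal.ofReal Real.pi + ENNReal.ofReal (Real.pi * 4 / 3) := by
  have hm : ∀ a b c : Mode, a ≠ .full → b ≠ .full → c ≠ .full → v a b c ≤ 1 := fun a b c h1 h2 h3 => v_le_one h1 h2 h3
  have nm : Mode.mid ≠ .full := by intro h; cases h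
  have no : Mode.out ≠ .full := by intro h; cases h
  calc v .full .full .full ≤ v .mid .full .full + 2 * v .out .full .full := s0 _ _
    _ ≤ (v .mid .mid .full + 2 * v .mid .out .full) + 2 * (v .out .mid .full + 2 * v .out .out .full) := by
        gcongr
        · exact s1 _ _
        · exact s1 _ _
    _ ≤ ((v .mid .mid .mid + 2 * v .mid .mid .out) + 2 * (v .mid .out .mid + 2 * v .mid .out .out)) +
        2 * ((v .out .mid .mid + 2 * v .out .mid .out) + 2 * (v .out .out .mid + 2 * v .out .out .out)) := by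
        gcongr
        · exact s2 _ _
        · exact s2 _ _
        · exact s2 _ _
        · exact s2 _ _
    _ = (v .mid .mid .mid + 2 * v .mid .mid .out + 2 * v .mid .out .mid + 2 * v .out .mid .mid) +
        (4 * v .mid .out .out + 4 * v .out .mid .out + 4 * v .out .out .mid) + 8 * v .out .out .out := by ring
    _ ≤ (1 + 2 * 1 + 2 * 1 + 2 * 1) + (ENNReal.ofReal Real.pi + ENNReal.ofReal Real.pi + ENNReal.ofReal Real.pi) +
        ENNReal.ofReal (Real.pi * 4 / 3) := by
        gcongr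
        · exact hm _ _ _ nm nm nm
        · exact hm _ _ _ nm nm no
        · exact hm _ _ _ nm no nm
        · exact hm _ _ _ no nm nm
        · exact v_moo
        · exact v_omo
        · exact v_oom
        · exact v_ooo
    _ = _ := by
        have e1 : (1 + 2 * 1 + 2 * 1 + 2 * 1 : ENNReal) = 7 := by norm_num
        rw [e1]
        ring

end Pool.Agent.J6H21.UC
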