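import Pool.Agent.J6H21.UC.Vol2

set_option autoImplicit false

/-!
# Unit cubes touching a unit cube: the volume of the neighbourhood of radius `r` of a cube
-/

open MeasureTheory Set Metric

namespace Pool.Agent.J6H21.UC.R

/-- the sets -/
def A (r : ℝ) (m : Fin 3 → Mode) : Set E :=
  {x | (∀ j, x j ∈ dom (m j)) ∧ exc (m 0) (x 0) ^ 2 + exc (m 1) (x 1) ^ 2 + exc (m 2) (x 2) ^ 2 ≤ r ^ 2}

theorem meas_A (r : ℝ) (m : Fin 3 → Mode) : MeasurableSet (A r m) := by
  have h1 : MeasurableSet {x : E | ∀ j, x j ∈ dom (m j)} := by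
    have : {x : E | ∀ j, x j ∈ dom (m j)} = ⋂ j, (fun x : E => x j) ⁻¹' dom (m j) := by ext x; simp
    rw [this]
    exact MeasurableSet.iInter fun j => (meas_coord j) (meas_dom _)
  have h2 : MeasurableSet {x : E | exc (m 0) (x 0) ^ 2 + exc (m 1) (x 1) ^ 2 + exc (m 2) (x 2) ^ 2 ≤ r ^ 2} := by
    refine measurableSet_le ?_ measurable_const
    exact ((((meas_exc _).comp (meas_coord 0)).pow_const 2).add (((meas_exc _).comp (meas_coord 1)).pow_const 2)).add
      (((meas_exc _).comp (meas_coord 2)).pow_const 2)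
  exact h1.inter h2

/-- the same as a sum over all coordinates -/
theorem mem_A {r : ℝ} {m : Fin 3 → Mode} {x : E} :
    x ∈ A r m ↔ (∀ j, x j ∈ dom (m j)) ∧ ∑ j, exc (m j) (x j) ^ 2 ≤ r ^ 2 := by
  rw [Fin.sum_univ_three]; rfl

theorem split {r : ℝ} {m : Fin 3 → Mode} {i : Fin 3} (hi : m i = .full) :
    volume (A r m) ≤ volume (A r (Function.update m i .mid)) + 2 * volume (A r (Function.update m i .out)) := by
  have h1 : A r m ⊆ A r (Function.update m i .mid) ∪ (refl i 0 ⁻¹' (A r (Function.update m i .out)) ∪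
      refl i 1 ⁻¹' (refl i 0 ⁻¹' (A r (Function.update m i .out)))) := by
    intro x hx
    obtain ⟨hd, hs⟩ := mem_A.1 hx
    rcases lt_or_ge (x i) 0 with h | h
    · right; left
      refine mem_A.2 ⟨dom_update hd ?_ fun j hj => refl_ne hj _ _, (sum_update ?_ fun j hj => refl_ne hj _ _).trans hs⟩
      · show 0 < refl i 0 x i
        rw [refl_same]; linarith
      · rw [hi]
        show refl i 0 x i ^ 2 ≤ ex (x i) ^ 2
        rw [refl_same, ex_neg h, zero_sub]
    · rcases lt_or_ge 1 (x i) with h' | h'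
      · right; right
        have e : ∀ j, j ≠ i → refl i 0 (refl i 1 x) j = x j := fun j hj => by rw [refl_ne hj, refl_ne hj]
        have e2 : refl i 0 (refl i 1 x) i = x i - 1 := by rw [refl_same, refl_same]; ring
        refine mem_A.2 ⟨dom_update hd ?_ e, (sum_update ?_ e).trans hs⟩
        · show 0 < refl i 0 (refl i 1 x) i
          rw [e2]; linarith
        · rw [hi]
          show refl i 0 (refl i 1 x) i ^ 2 ≤ ex (x i) ^ 2
          rw [e2, ex_big h']
      · left
        refine mem_A.2 ⟨dom_update hd ⟨h, h'⟩ fun j _ => rfl, (sum_update ?_ fun j _ => rfl).trans hs⟩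
        show (0 : ℝ) ^ 2 ≤ _
        rw [zero_pow two_ne_zero]
        exact sq_nonneg _
  refine (measure_mono h1).trans ((measure_union_le _ _).trans ?_)
  gcongr
  refine (measure_union_le _ _).trans ?_
  have hm := meas_A r (Function.update m i .out)
  rw [refl_preimage i 1 ((refl_mp i 0).measurable hm), refl_preimage i 0 hm, two_mul]

/-- the volume of a box -/
theorem vol_box (b : Fin 3 → ℝ) : volume {x : E | ∀ i, 0 ≤ x i ∧ x i ≤ b i} =
    ENNReal.ofReal (b 0) * ENNReal.ofReal (b 1) * ENNReal.ofReal (b 2) := by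
  have h1 : {x : E | ∀ i, 0 ≤ x i ∧ x i ≤ b i} = WithLp.ofLp ⁻¹' (Icc (fun _ : Fin 3 => (0 : ℝ)) b) := by
    ext x
    simp only [mem_ofPred_eq, mem_preimage, mem_Icc, Pi.le_def]
    exact ⟨fun h => ⟨fun i => (h i).1, fun i => (h i).2⟩, fun h i => ⟨h.1 i, h.2 i⟩⟩
  rw [h1, (PiLp.volume_preserving_ofLp (Fin 3)).measure_preimage measurableSet_Icc.nullMeasurableSet, Real.volume_Icc_pi,
    Fin.prod_univ_three]
  simp

/-- the volume of a cylinder -/
theorem vol_cyl (c : Fin 3) (r : ℝ) :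
    volume {x : E | x c ∈ Icc (0 : ℝ) 1 ∧ x (c.succAbove 0) ^ 2 + x (c.succAbove 1) ^ 2 ≤ r ^ 2} ≤
      ENNReal.ofReal (Real.pi * r ^ 2) := by
  have hmdisc : MeasurableSet {y : Fin 2 → ℝ | y 0 ^ 2 + y 1 ^ 2 ≤ r ^ 2} :=
    measurableSet_le (by fun_prop) measurable_const
  have h1 : {x : E | x c ∈ Icc (0 : ℝ) 1 ∧ x (c.succAbove 0) ^ 2 + x (c.succAbove 1) ^ 2 ≤ r ^ 2} =
      WithLp.ofLp ⁻¹' ((MeasurableEquiv.piFinSuccAbove (fun _ : Fin 3 => ℝ) c) ⁻¹'
        ((Icc (0 : ℝ) 1) ×ˢ {y : Fin 2 → ℝ | y 0 ^ 2 + y 1 ^ 2 ≤ r ^ 2})) := by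
    ext x
    rfl
  have hm : MeasurableSet ((Icc (0 : ℝ) 1) ×ˢ {y : Fin 2 → ℝ | y 0 ^ 2 + y 1 ^ 2 ≤ r ^ 2}) := measurableSet_Icc.prod hmdisc
  rw [h1, (PiLp.volume_preserving_ofLp (Fin 3)).measure_preimage
    ((MeasurableEquiv.piFinSuccAbove (fun _ : Fin 3 => ℝ) c).measurable hm).nullMeasurableSet,
    (volume_preserving_piFinSuccAbove (fun _ : Fin 3 => ℝ) c).measure_preimage hm.nullMeasurableSet,
    Measure.volume_eq_prod, Measure.prod_prod, vol_disc (sq_nonneg r), Real.volume_Icc]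
  simp

/-- the volume of `A r ![a, b, c]` -/
noncomputable def v (r : ℝ) (a b c : Mode) : ENNReal := volume (A r ![a, b, c])

theorem s0 (r : ℝ) (b c : Mode) : v r .full b c ≤ v r .mid b c + 2 * v r .out b c := by
  have := split (r := r) (m := ![.full, b, c]) (i := 0) rfl
  rwa [upd0, upd0] at this

theorem s1 (r : ℝ) (a c : Mode) : v r a .full c ≤ v r a .mid c + 2 * v r a .out c := by
  have := split (r := r) (m := ![a, .full, c]) (i := 1) rfl
  rwa [upd1, upd1] at this

theorem s2 (r : ℝ) (a b : Mode) : v r a b .full ≤ v r a b .mid + 2 * v r a b .out := by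
  have := split (r := r) (m := ![a, b, .full]) (i := 2) rfl
  rwa [upd2, upd2] at this

/-- the largest value of a coordinate -/
noncomputable def top (r : ℝ) : Mode → ℝ
  | .full => 0
  | .mid => 1
  | .out => r

theorem v_le_box {r : ℝ} (hr : 0 ≤ r) {a b c : Mode} (ha : a ≠ .full) (hb : b ≠ .full) (hc : c ≠ .full) :
    v r a b c ≤ ENNReal.ofReal (top r a) * ENNReal.ofReal (top r b) * ENNReal.ofReal (top r c) := by
  have h1 : A r ![a, b, c] ⊆ {x : E | ∀ i, (0 : ℝ) ≤ x i ∧ x i ≤ ![top r a, top r b, top r c] i} := by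
    intro x hx
    obtain ⟨hd, hs⟩ := hx
    have d0 : x 0 ∈ dom a := hd 0
    have d1 : x 1 ∈ dom b := hd 1
    have d2 : x 2 ∈ dom c := hd 2
    have hs' : exc a (x 0) ^ 2 + exc b (x 1) ^ 2 + exc c (x 2) ^ 2 ≤ r ^ 2 := hs
    have key : ∀ (w : Mode) (t : ℝ), w ≠ .full → t ∈ dom w → exc w t ^ 2 ≤ r ^ 2 → 0 ≤ t ∧ t ≤ top r w := by
      intro w t hw ht h2
      cases w
      · exact absurd rfl hw
      · exact ht
      · have ht' : 0 < t := ht
        have h2' : t ^ 2 ≤ r ^ 2 := h2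
        exact ⟨ht'.le, (sq_le_sq₀ ht'.le hr).1 h2'⟩
    have q0 := sq_nonneg (exc a (x 0))
    have q1 := sq_nonneg (exc b (x 1))
    have q2 := sq_nonneg (exc c (x 2))
    have k0 := key a (x 0) ha d0 (by linarith)
    have k1 := key b (x 1) hb d1 (by linarith)
    have k2 := key c (x 2) hc d2 (by linarith)
    intro i
    fin_cases i
    · exact k0
    · exact k1
    · exact k2
  refine (measure_mono h1).trans (le_of_eq ?_)
  exact vol_box _

theorem two_out {r : ℝ} {c : Fin 3} {S : Set E}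
    (hS : S ⊆ {x : E | x c ∈ Icc (0 : ℝ) 1 ∧ x (c.succAbove 0) ^ 2 + x (c.succAbove 1) ^ 2 ≤ r ^ 2} ∩
      {x | 0 < x (c.succAbove 0)} ∩ {x | 0 < x (c.succAbove 1)}) : 4 * volume S ≤ ENNReal.ofReal (Real.pi * r ^ 2) := by
  have hn1 : c ≠ c.succAbove 0 := (Fin.succAbove_ne c 0).symm
  have hn2 : c ≠ c.succAbove 1 := (Fin.succAbove_ne c 1).symm
  have hn3 : c.succAbove 1 ≠ c.succAbove 0 := fun h => by
    have := Fin.succAbove_right_injective h
    exact absurd this (by decide)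
  have hm : MeasurableSet {x : E | x c ∈ Icc (0 : ℝ) 1 ∧ x (c.succAbove 0) ^ 2 + x (c.succAbove 1) ^ 2 ≤ r ^ 2} := by
    have h1 : MeasurableSet {x : E | x c ∈ Icc (0 : ℝ) 1} := (meas_coord c) measurableSet_Icc
    have h2 : MeasurableSet {x : E | x (c.succAbove 0) ^ 2 + x (c.succAbove 1) ^ 2 ≤ r ^ 2} :=
      measurableSet_le (((meas_coord _).pow_const 2).add ((meas_coord _).pow_const 2)) measurable_const
    exact h1.inter h2
  have hm1 : MeasurableSet {x : E | 0 < x (c.succAbove 0)} := measurableSet_lt measurable_const (meas_coord _)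
  have h1 := le_half (i := c.succAbove 0) hm fun x hx => by
    obtain ⟨h2, h3⟩ := hx
    refine ⟨?_, ?_⟩
    · rw [refl_ne hn1]; exact h2
    · rw [refl_same, refl_ne hn3]
      linarith [sq (0 - x (c.succAbove 0)), sq (x (c.succAbove 0))]
  have h2 := le_half (i := c.succAbove 1) (hm.inter hm1) fun x hx => by
    obtain ⟨⟨h2, h3⟩, h4⟩ := hx
    refine ⟨⟨?_, ?_⟩, ?_⟩
    · rw [refl_ne hn2]; exact h2
    · rw [refl_same, refl_ne hn3.symm]
      linarith [sq (0 - x (c.succAbove 1)), sq (x (c.succAbove 1))]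
    · show 0 < refl (c.succAbove 1) 0 x (c.succAbove 0)
      rw [refl_ne hn3.symm]
      exact h4
  refine le_trans ?_ (vol_cyl c r)
  refine le_trans ?_ h1
  refine le_trans ?_ (mul_le_mul' (le_refl (2 : ENNReal)) h2)
  rw [← mul_assoc]
  norm_num
  exact mul_le_mul' le_rfl (measure_mono hS)

theorem v_moo (r : ℝ) : 4 * v r .mid .out .out ≤ ENNReal.ofReal (Real.pi * r ^ 2) := by
  refine two_out (c := 0) ?_
  rintro x ⟨hd, hs⟩
  have hs' : (0 : ℝ) ^ 2 + x 1 ^ 2 + x 2 ^ 2 ≤ r ^ 2 := hs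
  refine ⟨⟨⟨hd 0, ?_⟩, hd 1⟩, hd 2⟩
  show x 1 ^ 2 + x 2 ^ 2 ≤ r ^ 2
  linarith

theorem v_omo (r : ℝ) : 4 * v r .out .mid .out ≤ ENNReal.ofReal (Real.pi * r ^ 2) := by
  refine two_out (c := 1) ?_
  rintro x ⟨hd, hs⟩
  have hs' : x 0 ^ 2 + (0 : ℝ) ^ 2 + x 2 ^ 2 ≤ r ^ 2 := hs
  refine ⟨⟨⟨hd 1, ?_⟩, hd 0⟩, hd 2⟩
  show x 0 ^ 2 + x 2 ^ 2 ≤ r ^ 2
  linarith

theorem v_oom (r : ℝ) : 4 * v r .out .out .mid ≤ ENNReal.ofReal (Real.pi * r ^ 2) := by
  refine two_out (c := 2) ?_
  rintro x ⟨hd, hs⟩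
  have hs' : x 0 ^ 2 + x 1 ^ 2 + (0 : ℝ) ^ 2 ≤ r ^ 2 := hs
  refine ⟨⟨⟨hd 2, ?_⟩, hd 0⟩, hd 1⟩
  show x 0 ^ 2 + x 1 ^ 2 ≤ r ^ 2
  linarith

theorem v_ooo {r : ℝ} (hr : 0 ≤ r) : 8 * v r .out .out .out ≤ ENNReal.ofReal (Real.pi * 4 / 3 * r ^ 3) := by
  have hB : MeasurableSet (closedBall (0 : E) r) := measurableSet_closedBall
  have hp : ∀ i : Fin 3, MeasurableSet {x : E | 0 < x i} := fun i => measurableSet_lt measurable_const (meas_coord i)
  have h0 : volume (closedBall (0 : E) r) = ENNReal.ofReal (Real.pi * 4 / 3 * r ^ 3) := by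
    rw [EuclideanSpace.volume_closedBall_fin_three, ← ENNReal.ofReal_pow hr, mul_comm,
      ← ENNReal.ofReal_mul (by positivity)]
  have h1 : 2 * volume (closedBall (0 : E) r ∩ {x | 0 < x 0}) ≤ volume (closedBall (0 : E) r) := by
    refine le_half hB fun x hx => ?_
    rw [mem_ballr hr] at hx ⊢
    rw [refl_same, refl_ne (by decide), refl_ne (by decide)]
    linarith [sq (0 - x 0), sq (x 0)]
  have h2 : 2 * volume (closedBall (0 : E) r ∩ {x | 0 < x 0} ∩ {x | 0 < x 1}) ≤
      volume (closedBall (0 : E) r ∩ {x | 0 < x 0}) := by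
    refine le_half (hB.inter (hp 0)) fun x hx => ⟨?_, ?_⟩
    · have := hx.1
      rw [mem_ballr hr] at this ⊢
      rw [refl_same, refl_ne (by decide), refl_ne (by decide)]
      linarith [sq (0 - x 1), sq (x 1)]
    · show 0 < refl 1 0 x 0
      rw [refl_ne (by decide)]
      exact hx.2
  have h3 : 2 * volume (closedBall (0 : E) r ∩ {x | 0 < x 0} ∩ {x | 0 < x 1} ∩ {x | 0 < x 2}) ≤
      volume (closedBall (0 : E) r ∩ {x | 0 < x 0} ∩ {x | 0 < x 1}) := by
    refine le_half ((hB.inter (hp 0)).inter (hp 1)) fun x hx => ⟨⟨?_, ?_⟩, ?_⟩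
    · have := hx.1.1
      rw [mem_ballr hr] at this ⊢
      rw [refl_same, refl_ne (by decide), refl_ne (by decide)]
      linarith [sq (0 - x 2), sq (x 2)]
    · show 0 < refl 2 0 x 0
      rw [refl_ne (by decide)]
      exact hx.1.2
    · show 0 < refl 2 0 x 1
      rw [refl_ne (by decide)]
      exact hx.2
  have h4 : A r ![.out, .out, .out] ⊆ closedBall (0 : E) r ∩ {x | 0 < x 0} ∩ {x | 0 < x 1} ∩ {x | 0 < x 2} := by
    rintro x ⟨hd, hs⟩
    exact ⟨⟨⟨(mem_ballr hr x).2 hs, hd 0⟩, hd 1⟩, hd 2⟩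
  calc 8 * v r .out .out .out = 2 * (2 * (2 * v r .out .out .out)) := by
        rw [← mul_assoc, ← mul_assoc]; norm_num
    _ ≤ 2 * (2 * (2 * volume (closedBall (0 : E) r ∩ {x | 0 < x 0} ∩ {x | 0 < x 1} ∩ {x | 0 < x 2}))) :=
        mul_le_mul' le_rfl (mul_le_mul' le_rfl (mul_le_mul' le_rfl (measure_mono h4)))
    _ ≤ 2 * (2 * volume (closedBall (0 : E) r ∩ {x | 0 < x 0} ∩ {x | 0 < x 1})) :=
        mul_le_mul' le_rfl (mul_le_mul' le_rfl h3)
    _ ≤ 2 * volume (closedBall (0 : E) r ∩ {x | 0 < x 0}) := mul_le_mul' le_rfl h2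
    _ ≤ volume (closedBall (0 : E) r) := h1
    _ = _ := h0

/-- **Steiner's formula** for the unit cube (an upper bound) -/
theorem vol_steiner {r : ℝ} (hr : 0 ≤ r) : v r .full .full .full ≤
    1 + 6 * ENNReal.ofReal r + 3 * ENNReal.ofReal (Real.pi * r ^ 2) + ENNReal.ofReal (Real.pi * 4 / 3 * r ^ 3) := by
  have nm : Mode.mid ≠ .full := by intro h; cases h
  have no : Mode.out ≠ .full := by intro h; cases h
  have m0 : v r .mid .mid .mid ≤ 1 := by
    refine (v_le_box hr nm nm nm).trans (le_of_eq ?_)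
    simp [top]
  have m1 : v r .mid .mid .out ≤ ENNReal.ofReal r := by
    refine (v_le_box hr nm nm no).trans (le_of_eq ?_)
    simp [top]
  have m2 : v r .mid .out .mid ≤ ENNReal.ofReal r := by
    refine (v_le_box hr nm no nm).trans (le_of_eq ?_)
    simp [top]
  have m3 : v r .out .mid .mid ≤ ENNReal.ofReal r := by
    refine (v_le_box hr no nm nm).trans (le_of_eq ?_)
    simp [top]
  calc v r .full .full .full ≤ v r .mid .full .full + 2 * v r .out .full .full := s0 _ _ _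
    _ ≤ (v r .mid .mid .full + 2 * v r .mid .out .full) + 2 * (v r .out .mid .full + 2 * v r .out .out .full) := by
        gcongr
        · exact s1 _ _ _
        · exact s1 _ _ _
    _ ≤ ((v r .mid .mid .mid + 2 * v r .mid .mid .out) + 2 * (v r .mid .out .mid + 2 * v r .mid .out .out)) +
        2 * ((v r .out .mid .mid + 2 * v r .out .mid .out) + 2 * (v r .out .out .mid + 2 * v r .out .out .out)) := by
        gcongr
        · exact s2 _ _ _
        · exact s2 _ _ _
        · exact s2 _ _ _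
        · exact s2 _ _ _
    _ = (v r .mid .mid .mid + 2 * v r .mid .mid .out + 2 * v r .mid .out .mid + 2 * v r .out .mid .mid) +
        (4 * v r .mid .out .out + 4 * v r .out .mid .out + 4 * v r .out .out .mid) + 8 * v r .out .out .out := by ring
    _ ≤ (1 + 2 * ENNReal.ofReal r + 2 * ENNReal.ofReal r + 2 * ENNReal.ofReal r) +
        (ENNReal.ofReal (Real.pi * r ^ 2) + ENNReal.ofReal (Real.pi * r ^ 2) + ENNReal.ofReal (Real.pi * r ^ 2)) +
        ENNReal.ofReal (Real.pi * 4 / 3 * r ^ 3) := by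
        refine add_le_add (add_le_add ?_ ?_) (v_ooo hr)
        · exact add_le_add (add_le_add (add_le_add m0 (mul_le_mul' le_rfl m1)) (mul_le_mul' le_rfl m2))
            (mul_le_mul' le_rfl m3)
        · exact add_le_add (add_le_add (v_moo r) (v_omo r)) (v_oom r)
    _ = _ := by ring

/-- the points at distance at most `r` from a point of `K` -/
theorem ball_sub {r : ℝ} (hr : 0 ≤ r) {p : E} (hp : p ∈ K) : closedBall p r ⊆ A r ![.full, .full, .full] := by
  intro x hx
  refine ⟨fun j => by fin_cases j <;> trivial, ?_⟩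
  show ex (x 0) ^ 2 + ex (x 1) ^ 2 + ex (x 2) ^ 2 ≤ r ^ 2
  rw [mem_closedBall, EuclideanSpace.dist_eq, Real.sqrt_le_left hr, Fin.sum_univ_three] at hx
  simp only [Real.dist_eq, sq_abs] at hx
  linarith [ex_le (t := x 0) (hp 0), ex_le (t := x 1) (hp 1), ex_le (t := x 2) (hp 2)]

theorem K_ball {r : ℝ} (hr : 1 ≤ r) {q : E} (hq : q ∈ K) : ENNReal.ofReal (Real.pi * 4 / 3 * r ^ 3) ≤
    8 * volume (K ∩ closedBall q r) + 6 * ENNReal.ofReal (Real.pi * ((r - 1) ^ 2 * (2 * r + 1) / 3)) := by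
  have h1 := ball_slabs_r hr (a := fun i => q i) hq
  refine h1.trans (add_le_add (mul_le_mul' le_rfl ?_) le_rfl)
  rw [← measure_preimage_add_right volume q (K ∩ closedBall q r)]
  refine measure_mono ?_
  rintro x ⟨⟨⟨hx, h2⟩, h3⟩, h4⟩
  refine ⟨?_, ?_⟩
  · have key : ∀ i, x ∈ slab i (q i) → (0 : ℝ) ≤ (x + q) i ∧ (x + q) i ≤ 1 := by
      intro i hi
      have e : (x + q) i = x i + q i := rfl
      rw [e]
      exact ⟨by linarith [hi.1], by linarith [hi.2]⟩
    intro i
    fin_cases i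
    · exact key 0 h2
    · exact key 1 h3
    · exact key 2 h4
  · show x + q ∈ closedBall q r
    rw [mem_closedBall, dist_eq_norm, add_sub_cancel_right]
    rwa [mem_closedBall_zero_iff] at hx

theorem cube_ball {r : ℝ} (hr : 1 ≤ r) {c : E} {L : E ≃ₗᵢ[ℝ] E} {p : E} (hp : p ∈ cube c L) :
    ENNReal.ofReal (Real.pi * 4 / 3 * r ^ 3) ≤ 8 * volume (interior (cube c L) ∩ closedBall p r) +
      6 * ENNReal.ofReal (Real.pi * ((r - 1) ^ 2 * (2 * r + 1) / 3)) := by
  obtain ⟨q, hq, rfl⟩ := hp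
  have hmp : MeasurePreserving (fun x => c + L x) (volume : Measure E) volume :=
    (measurePreserving_add_left volume c).comp L.measurePreserving
  have hms : MeasurableSet (cube c L ∩ closedBall (c + L q) r) :=
    (isClosed_cube c L).measurableSet.inter measurableSet_closedBall
  have h1 : volume (K ∩ closedBall q r) ≤ volume (cube c L ∩ closedBall (c + L q) r) := by
    rw [← hmp.measure_preimage hms.nullMeasurableSet]
    refine measure_mono ?_
    rintro x ⟨hx, hx2⟩
    refine ⟨⟨x, hx, rfl⟩, ?_⟩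
    show c + L x ∈ closedBall (c + L q) r
    rw [mem_closedBall, dist_add_left, L.dist_map]
    exact hx2
  have h2 : volume (cube c L ∩ closedBall (c + L q) r) ≤ volume (interior (cube c L) ∩ closedBall (c + L q) r) := by
    have h3 : cube c L ∩ closedBall (c + L q) r ⊆
        (interior (cube c L) ∩ closedBall (c + L q) r) ∪ frontier (cube c L) := by
      rintro x ⟨hx, hx2⟩
      by_cases h : x ∈ interior (cube c L)
      · exact Or.inl ⟨h, hx2⟩
      · exact Or.inr ⟨subset_closure hx, h⟩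
    refine (measure_mono h3).trans ((measure_union_le _ _).trans ?_)
    rw [(convex_cube c L).addHaar_frontier volume, add_zero]
  exact (K_ball hr hq).trans (add_le_add (mul_le_mul' le_rfl (h1.trans h2)) le_rfl)

theorem bound {k : ℕ} {c : Fin k → E} {L : Fin k → (E ≃ₗᵢ[ℝ] E)} (h : Admissible k c L) : k ≤ 34 := by
  obtain ⟨h1, h2, h3⟩ := h
  -- common points
  have hp : ∀ i, ∃ p, p ∈ K ∧ p ∈ cube (c i) (L i) := by
    intro i
    obtain ⟨p, hp1, hp2⟩ := nonempty_of_measure_ne_zero (h3 i).ne'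
    refine ⟨p, ?_, ?_⟩
    · exact isClosed_K.frontier_subset hp1
    · exact (isClosed_cube _ _).frontier_subset hp2
  choose p hpK hpC using hp
  have hr : (1 : ℝ) ≤ 23 / 20 := by norm_num
  have hr0 : (0 : ℝ) ≤ 23 / 20 := by norm_num
  set U : Fin k → Set E := fun i => interior (cube (c i) (L i)) ∩ closedBall (p i) (23 / 20) with hU
  have hUm : ∀ i, MeasurableSet (U i) := fun i => isOpen_interior.measurableSet.inter measurableSet_closedBall
  have hUd : Pairwise (Function.onFun Disjoint U) := by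
    intro i j hij
    exact (h2 i j hij).mono inter_subset_left inter_subset_left
  have hsum : volume (⋃ i, U i) = ∑ i, volume (U i) := by
    rw [measure_iUnion hUd hUm, tsum_fintype]
  have hKd : Disjoint (interior K) (⋃ i, U i) := by
    rw [disjoint_iUnion_right]
    exact fun i => (h1 i).mono le_rfl inter_subset_left
  have hK0 : K ⊆ A (23 / 20) ![.full, .full, .full] := by
    intro x hx
    exact ball_sub hr0 hx (mem_closedBall_self hr0)
  set V : ENNReal := ENNReal.ofReal (Real.pi * 4 / 3 * (23 / 20 : ℝ) ^ 3) with hV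
  set W : ENNReal := ENNReal.ofReal (Real.pi * (((23 / 20 : ℝ) - 1) ^ 2 * (2 * (23 / 20) + 1) / 3)) with hW
  set T : ENNReal := 1 + 6 * ENNReal.ofReal (23 / 20) + 3 * ENNReal.ofReal (Real.pi * (23 / 20 : ℝ) ^ 2) + V with hT
  have htot : volume (interior K) + ∑ i, volume (U i) ≤ T := by
    rw [← hsum, ← measure_union hKd (MeasurableSet.iUnion hUm)]
    refine (measure_mono ?_).trans (vol_steiner hr0)
    refine union_subset (interior_subset.trans hK0) (iUnion_subset fun i => ?_)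
    exact inter_subset_right.trans (ball_sub hr0 (hpK i))
  have hlow : (k : ENNReal) * V ≤ 8 * ∑ i, volume (U i) + k * (6 * W) := by
    have e : 8 * ∑ i, volume (U i) + k * (6 * W) = ∑ i, (8 * volume (U i) + 6 * W) := by
      rw [Finset.sum_add_distrib, ← Finset.mul_sum]
      simp
    rw [e]
    calc (k : ENNReal) * V = ∑ _i : Fin k, V := by simp
      _ ≤ _ := Finset.sum_le_sum fun i _ => cube_ball hr (hpC i)
  have hfin : 8 + (k : ENNReal) * V ≤ 8 * T + k * (6 * W) := by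
    calc 8 + (k : ENNReal) * V ≤ 8 * volume (interior K) + (8 * ∑ i, volume (U i) + k * (6 * W)) := by
          refine add_le_add ?_ hlow
          calc (8 : ENNReal) = 8 * 1 := by norm_num
            _ ≤ _ := mul_le_mul' le_rfl vol_int_K
      _ = 8 * (volume (interior K) + ∑ i, volume (U i)) + k * (6 * W) := by ring
      _ ≤ _ := add_le_add (mul_le_mul' le_rfl htot) le_rfl
  have hpi := Real.pi_gt_d2
  have hreal : 8 + (k : ℝ) * (Real.pi * 4 / 3 * (23 / 20) ^ 3) ≤
      8 * (1 + 6 * (23 / 20) + 3 * (Real.pi * (23 / 20) ^ 2) + Real.pi * 4 / 3 * (23 / 20) ^ 3) +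
        k * (6 * (Real.pi * (((23 / 20) - 1) ^ 2 * (2 * (23 / 20) + 1) / 3))) := by
    have e1 : 8 + (k : ENNReal) * V = ENNReal.ofReal (8 + (k : ℝ) * (Real.pi * 4 / 3 * (23 / 20) ^ 3)) := by
      rw [ENNReal.ofReal_add (by norm_num) (by positivity), ENNReal.ofReal_mul (by positivity), hV]
      simp
    have e2 : 8 * T + k * (6 * W) = ENNReal.ofReal
        (8 * (1 + 6 * (23 / 20) + 3 * (Real.pi * (23 / 20) ^ 2) + Real.pi * 4 / 3 * (23 / 20) ^ 3) +
        k * (6 * (Real.pi * (((23 / 20) - 1) ^ 2 * (2 * (23 / 20) + 1) / 3)))) := by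
      have hpp : 0 ≤ Real.pi * ((((23 / 20 : ℝ)) - 1) ^ 2 * (2 * (23 / 20) + 1) / 3) := by
        have := Real.pi_pos
        norm_num
        positivity
      rw [ENNReal.ofReal_add (by positivity) (by positivity), ENNReal.ofReal_mul (by norm_num),
        ENNReal.ofReal_add (by positivity) (by positivity), ENNReal.ofReal_add (by positivity) (by positivity),
        ENNReal.ofReal_add (by norm_num) (by norm_num), ENNReal.ofReal_mul (p := (6 : ℝ)) (by norm_num),
        ENNReal.ofReal_mul (p := (3 : ℝ)) (by norm_num), ENNReal.ofReal_mul (p := (k : ℝ)) (by positivity),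
        ENNReal.ofReal_mul (p := (6 : ℝ)) (by norm_num), ← hV, ← hW]
      simp [hT]
    rw [e1, e2, ENNReal.ofReal_le_ofReal_iff (by
      have := Real.pi_pos
      norm_num
      positivity)] at hfin
    exact hfin
  by_contra hk
  have hk' : (35 : ℝ) ≤ k := by exact_mod_cast (show 35 ≤ k by omega)
  nlinarith

theorem N_le : N ≤ 34 := csSup_le' fun _ ⟨_, _, h⟩ => bound h

end Pool.Agent.J6H21.UC.R
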