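import Mathlib

set_option autoImplicit false

/-!
# Unit cubes touching a unit cube: volumes
-/

open MeasureTheory Set Metric

namespace Pool.Agent.J6H21.UC

/-- Euclidean three-space -/
abbrev E : Type := EuclideanSpace ℝ (Fin 3)

/-- the `i`-th coordinate is replaced by `c - x_i` -/
noncomputable def refl (i : Fin 3) (c : ℝ) (x : E) : E := WithLp.toLp 2 (fun j => if j = i then c - x j else x j)

theorem refl_same (i : Fin 3) (c : ℝ) (x : E) : refl i c x i = c - x i := by simp [refl]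

theorem refl_ne {i j : Fin 3} (h : j ≠ i) (c : ℝ) (x : E) : refl i c x j = x j := by simp [refl, h]

theorem refl_mp (i : Fin 3) (c : ℝ) : MeasurePreserving (refl i c) volume volume := by
  have h1 : MeasurePreserving (fun (a : Fin 3 → ℝ) (j : Fin 3) => (if j = i then (fun t : ℝ => c - t) else id) (a j))
      volume volume := by
    refine volume_preserving_pi fun j => ?_
    split
    · exact (volume : Measure ℝ).measurePreserving_sub_left c
    · exact MeasurePreserving.id _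
  have h2 := (PiLp.volume_preserving_toLp (Fin 3)).comp (h1.comp (PiLp.volume_preserving_ofLp (Fin 3)))
  have e : refl i c = WithLp.toLp 2 ∘ ((fun (a : Fin 3 → ℝ) (j : Fin 3) => (if j = i then (fun t : ℝ => c - t) else id)
      (a j)) ∘ WithLp.ofLp) := by
    funext x
    unfold refl
    simp only [Function.comp]
    congr 1
    funext j
    by_cases h : j = i <;> simp [h]
  rw [e]
  exact h2

theorem refl_preimage (i : Fin 3) (c : ℝ) {A : Set E} (hA : MeasurableSet A) : volume (refl i c ⁻¹' A) = volume A :=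
  (refl_mp i c).measure_preimage hA.nullMeasurableSet

theorem meas_coord (i : Fin 3) : Measurable fun x : E => x i := by fun_prop

/-- the slab `-a ≤ x_i ≤ 1 - a` -/
def slab (i : Fin 3) (a : ℝ) : Set E := {x | -a ≤ x i ∧ x i ≤ 1 - a}

theorem meas_slab (i : Fin 3) (a : ℝ) : MeasurableSet (slab i a) :=
  (measurableSet_le measurable_const (meas_coord i)).inter (measurableSet_le (meas_coord i) measurable_const)

theorem slab_le {i : Fin 3} {a : ℝ} (ha : 0 ≤ a) (ha1 : a ≤ 1) {S : Set E} (hSm : MeasurableSet S)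
    (hS : ∀ x ∈ S, ∀ y : E, |y i| ≤ |x i| → (∀ j, j ≠ i → y j = x j) → y ∈ S) :
    volume (S ∩ slab i 0) ≤ volume (S ∩ slab i a) := by
  have hm1 : MeasurableSet {x : E | 0 ≤ x i ∧ x i ≤ 1 - a} :=
    (measurableSet_le measurable_const (meas_coord i)).inter (measurableSet_le (meas_coord i) measurable_const)
  have hm2 : MeasurableSet {x : E | -a ≤ x i ∧ x i < 0} :=
    (measurableSet_le measurable_const (meas_coord i)).inter (measurableSet_lt (meas_coord i) measurable_const)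
  have h1 : S ∩ slab i 0 ⊆ (S ∩ {x | 0 ≤ x i ∧ x i ≤ 1 - a}) ∪ (refl i (1 - a) ⁻¹' (S ∩ {x | -a ≤ x i ∧ x i < 0})) := by
    rintro x ⟨hx, hx1, hx2⟩
    simp only [neg_zero, sub_zero] at hx1 hx2
    by_cases h : x i ≤ 1 - a
    · exact Or.inl ⟨hx, hx1, h⟩
    · right
      rw [not_le] at h
      refine ⟨hS x hx _ ?_ fun j hj => refl_ne hj _ _, ?_, ?_⟩
      · rw [refl_same, abs_of_nonneg hx1, abs_of_nonpos (by linarith)]
        linarith
      · rw [refl_same]; linarith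
      · rw [refl_same]; linarith
  refine (measure_mono h1).trans ((measure_union_le _ _).trans ?_)
  rw [refl_preimage _ _ (hSm.inter hm2), ← measure_union ?_ (hSm.inter hm2)]
  · refine measure_mono ?_
    rintro x (⟨hx, h2, h3⟩ | ⟨hx, h2, h3⟩)
    · exact ⟨hx, by linarith, h3⟩
    · exact ⟨hx, h2, by linarith⟩
  · rw [Set.disjoint_left]
    rintro x ⟨_, h2, _⟩ ⟨_, _, h3⟩
    linarith

theorem half_le {i : Fin 3} {S : Set E} (hSm : MeasurableSet S) (hS : ∀ x ∈ S, refl i 0 x ∈ S) :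
    volume S ≤ 2 * volume (S ∩ {x | 0 ≤ x i}) := by
  have hm1 : MeasurableSet {x : E | 0 ≤ x i} := measurableSet_le measurable_const (meas_coord i)
  have h1 : S ⊆ (S ∩ {x | 0 ≤ x i}) ∪ (refl i 0 ⁻¹' (S ∩ {x | 0 ≤ x i})) := by
    intro x hx
    by_cases h : 0 ≤ x i
    · exact Or.inl ⟨hx, h⟩
    · right
      refine ⟨hS x hx, ?_⟩
      show 0 ≤ refl i 0 x i
      rw [refl_same]; linarith
  refine (measure_mono h1).trans ((measure_union_le _ _).trans ?_)
  rw [refl_preimage _ _ (hSm.inter hm1), two_mul]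

theorem mem_ball_iff (x : E) : x ∈ closedBall (0 : E) 1 ↔ x 0 ^ 2 + x 1 ^ 2 + x 2 ^ 2 ≤ 1 := by
  rw [mem_closedBall_zero_iff, ← sq_le_one_iff₀ (norm_nonneg x), EuclideanSpace.norm_sq_eq, Fin.sum_univ_three]
  simp only [Real.norm_eq_abs, sq_abs]

/-- the intersection of the ball with a product of slabs -/
theorem ball_slabs {a : Fin 3 → ℝ} (ha : ∀ i, 0 ≤ a i ∧ a i ≤ 1) :
    ENNReal.ofReal (Real.pi * 4 / 3) ≤
      8 * volume (closedBall (0 : E) 1 ∩ slab 0 (a 0) ∩ slab 1 (a 1) ∩ slab 2 (a 2)) := by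
  have hB : MeasurableSet (closedBall (0 : E) 1) := measurableSet_closedBall
  have hp : ∀ i : Fin 3, MeasurableSet {x : E | 0 ≤ x i} := fun i => measurableSet_le measurable_const (meas_coord i)
  -- the octant
  have h0 : volume (closedBall (0 : E) 1) = ENNReal.ofReal (Real.pi * 4 / 3) := by
    rw [EuclideanSpace.volume_closedBall_fin_three]
    simp
  have h1 : volume (closedBall (0 : E) 1) ≤ 2 * volume (closedBall (0 : E) 1 ∩ {x | 0 ≤ x 0}) := by
    refine half_le hB fun x hx => ?_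
    rw [mem_ball_iff] at hx ⊢
    rw [refl_same, refl_ne (by decide), refl_ne (by decide)]
    linarith [sq (0 - x 0), sq (x 0)]
  have h2 : volume (closedBall (0 : E) 1 ∩ {x | 0 ≤ x 0}) ≤
      2 * volume (closedBall (0 : E) 1 ∩ {x | 0 ≤ x 0} ∩ {x | 0 ≤ x 1}) := by
    refine half_le (hB.inter (hp 0)) fun x hx => ⟨?_, ?_⟩
    · have := hx.1
      rw [mem_ball_iff] at this ⊢
      rw [refl_same, refl_ne (by decide), refl_ne (by decide)]
      linarith [sq (0 - x 1), sq (x 1)]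
    · show 0 ≤ refl 1 0 x 0
      rw [refl_ne (by decide)]
      exact hx.2
  have h3 : volume (closedBall (0 : E) 1 ∩ {x | 0 ≤ x 0} ∩ {x | 0 ≤ x 1}) ≤
      2 * volume (closedBall (0 : E) 1 ∩ {x | 0 ≤ x 0} ∩ {x | 0 ≤ x 1} ∩ {x | 0 ≤ x 2}) := by
    refine half_le ((hB.inter (hp 0)).inter (hp 1)) fun x hx => ⟨⟨?_, ?_⟩, ?_⟩
    · have := hx.1.1
      rw [mem_ball_iff] at this ⊢
      rw [refl_same, refl_ne (by decide), refl_ne (by decide)]
      linarith [sq (0 - x 2), sq (x 2)]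
    · show 0 ≤ refl 2 0 x 0
      rw [refl_ne (by decide)]
      exact hx.1.2
    · show 0 ≤ refl 2 0 x 1
      rw [refl_ne (by decide)]
      exact hx.2
  have h4 : closedBall (0 : E) 1 ∩ {x | 0 ≤ x 0} ∩ {x | 0 ≤ x 1} ∩ {x | 0 ≤ x 2} ⊆
      closedBall (0 : E) 1 ∩ slab 0 0 ∩ slab 1 0 ∩ slab 2 0 := by
    rintro x ⟨⟨⟨hx, h5⟩, h6⟩, h7⟩
    have h5' : 0 ≤ x 0 := h5
    have h6' : 0 ≤ x 1 := h6
    have h7' : 0 ≤ x 2 := h7
    have hx' := (mem_ball_iff x).1 hx
    refine ⟨⟨⟨hx, ?_, ?_⟩, ?_, ?_⟩, ?_, ?_⟩ <;> simp only [neg_zero, sub_zero] <;>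
      first
        | assumption
        | nlinarith [sq_nonneg (x 0), sq_nonneg (x 1), sq_nonneg (x 2)]
  have h5 : volume (closedBall (0 : E) 1 ∩ slab 0 0 ∩ slab 1 0 ∩ slab 2 0) ≤
      volume (closedBall (0 : E) 1 ∩ slab 0 (a 0) ∩ slab 1 0 ∩ slab 2 0) := by
    have e1 : ∀ A : Set E, closedBall (0 : E) 1 ∩ A ∩ slab 1 0 ∩ slab 2 0 =
        (closedBall (0 : E) 1 ∩ slab 1 0 ∩ slab 2 0) ∩ A := by
      intro A; ext x; simp only [mem_inter_iff]; tauto
    rw [e1, e1]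
    refine slab_le (ha 0).1 (ha 0).2 ((hB.inter (meas_slab _ _)).inter (meas_slab _ _)) fun x hx y hy hyj => ?_
    have y1 : y 1 = x 1 := hyj 1 (by decide)
    have y2 : y 2 = x 2 := hyj 2 (by decide)
    obtain ⟨⟨hx1, hx2⟩, hx3⟩ := hx
    refine ⟨⟨?_, ?_⟩, ?_⟩
    · rw [mem_ball_iff] at hx1 ⊢
      rw [y1, y2]
      linarith [sq_le_sq.2 hy]
    · unfold slab at hx2 ⊢
      simpa only [mem_setOf_eq, y1] using hx2
    · unfold slab at hx3 ⊢
      simpa only [mem_setOf_eq, y2] using hx3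
  have h6 : volume (closedBall (0 : E) 1 ∩ slab 0 (a 0) ∩ slab 1 0 ∩ slab 2 0) ≤
      volume (closedBall (0 : E) 1 ∩ slab 0 (a 0) ∩ slab 1 (a 1) ∩ slab 2 0) := by
    have e1 : ∀ A : Set E, closedBall (0 : E) 1 ∩ slab 0 (a 0) ∩ A ∩ slab 2 0 =
        (closedBall (0 : E) 1 ∩ slab 0 (a 0) ∩ slab 2 0) ∩ A := by
      intro A; ext x; simp only [mem_inter_iff]; tauto
    rw [e1, e1]
    refine slab_le (ha 1).1 (ha 1).2 ((hB.inter (meas_slab _ _)).inter (meas_slab _ _)) fun x hx y hy hyj => ?_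
    have y1 : y 0 = x 0 := hyj 0 (by decide)
    have y2 : y 2 = x 2 := hyj 2 (by decide)
    obtain ⟨⟨hx1, hx2⟩, hx3⟩ := hx
    refine ⟨⟨?_, ?_⟩, ?_⟩
    · rw [mem_ball_iff] at hx1 ⊢
      rw [y1, y2]
      linarith [sq_le_sq.2 hy]
    · unfold slab at hx2 ⊢
      simpa only [mem_setOf_eq, y1] using hx2
    · unfold slab at hx3 ⊢
      simpa only [mem_setOf_eq, y2] using hx3
  have h7 : volume (closedBall (0 : E) 1 ∩ slab 0 (a 0) ∩ slab 1 (a 1) ∩ slab 2 0) ≤
      volume (closedBall (0 : E) 1 ∩ slab 0 (a 0) ∩ slab 1 (a 1) ∩ slab 2 (a 2)) := by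
    refine slab_le (ha 2).1 (ha 2).2 ((hB.inter (meas_slab _ _)).inter (meas_slab _ _)) fun x hx y hy hyj => ?_
    have y1 : y 0 = x 0 := hyj 0 (by decide)
    have y2 : y 1 = x 1 := hyj 1 (by decide)
    obtain ⟨⟨hx1, hx2⟩, hx3⟩ := hx
    refine ⟨⟨?_, ?_⟩, ?_⟩
    · rw [mem_ball_iff] at hx1 ⊢
      rw [y1, y2]
      linarith [sq_le_sq.2 hy]
    · unfold slab at hx2 ⊢
      simpa only [mem_setOf_eq, y1] using hx2
    · unfold slab at hx3 ⊢
      simpa only [mem_setOf_eq, y2] using hx3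
  have h8 := ((measure_mono h4).trans h5).trans (h6.trans h7)
  calc ENNReal.ofReal (Real.pi * 4 / 3) = volume (closedBall (0 : E) 1) := h0.symm
    _ ≤ 2 * (2 * (2 * volume (closedBall (0 : E) 1 ∩ {x | 0 ≤ x 0} ∩ {x | 0 ≤ x 1} ∩ {x | 0 ≤ x 2}))) :=
        h1.trans (by gcongr; exact h2.trans (by gcongr))
    _ ≤ 2 * (2 * (2 * volume (closedBall (0 : E) 1 ∩ slab 0 (a 0) ∩ slab 1 (a 1) ∩ slab 2 (a 2)))) := by gcongr
    _ = 8 * volume (closedBall (0 : E) 1 ∩ slab 0 (a 0) ∩ slab 1 (a 1) ∩ slab 2 (a 2)) := by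
        rw [← mul_assoc, ← mul_assoc]; norm_num

end Pool.Agent.J6H21.UC
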