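import Pool.Agent.J6H21.UC.Cubes

set_option autoImplicit false

/-!
# Unit cubes touching a unit cube: volumes for balls of radius `r ≥ 1`
-/

open MeasureTheory Set Metric

namespace Pool.Agent.J6H21.UC

theorem mem_ballr {r : ℝ} (hr : 0 ≤ r) (x : E) : x ∈ closedBall (0 : E) r ↔ x 0 ^ 2 + x 1 ^ 2 + x 2 ^ 2 ≤ r ^ 2 := by
  rw [mem_closedBall_zero_iff, ← sq_le_sq₀ (norm_nonneg x) hr, EuclideanSpace.norm_sq_eq, Fin.sum_univ_three]
  simp only [Real.norm_eq_abs, sq_abs]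

/-- the area of a disc -/
theorem vol_disc {s : ℝ} (hs : 0 ≤ s) : volume {y : Fin 2 → ℝ | y 0 ^ 2 + y 1 ^ 2 ≤ s} = ENNReal.ofReal (Real.pi * s) := by
  have hmdisc : MeasurableSet {y : Fin 2 → ℝ | y 0 ^ 2 + y 1 ^ 2 ≤ s} :=
    measurableSet_le (by fun_prop) measurable_const
  rw [← (PiLp.volume_preserving_ofLp (Fin 2)).measure_preimage hmdisc.nullMeasurableSet]
  have h3 : (WithLp.ofLp ⁻¹' {y : Fin 2 → ℝ | y 0 ^ 2 + y 1 ^ 2 ≤ s} : Set (EuclideanSpace ℝ (Fin 2))) =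
      closedBall 0 (Real.sqrt s) := by
    ext x
    rw [mem_closedBall_zero_iff, ← sq_le_sq₀ (norm_nonneg x) (Real.sqrt_nonneg s), EuclideanSpace.norm_sq_eq,
      Fin.sum_univ_two, Real.sq_sqrt hs]
    simp only [Real.norm_eq_abs, sq_abs]
    rfl
  rw [h3, EuclideanSpace.volume_closedBall_fin_two, ← ENNReal.ofReal_pow (Real.sqrt_nonneg s), Real.sq_sqrt hs,
    mul_comm, ENNReal.ofReal_mul Real.pi_pos.le]

/-- the volume of a set by its sections -/
theorem vol_prod (c : Fin 3) {T : Set (ℝ × (Fin 2 → ℝ))} (hT : MeasurableSet T) :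
    volume {x : E | (x c, fun j : Fin 2 => x (c.succAbove j)) ∈ T} = ∫⁻ t, volume {y | (t, y) ∈ T} := by
  have h1 : {x : E | (x c, fun j : Fin 2 => x (c.succAbove j)) ∈ T} =
      WithLp.ofLp ⁻¹' ((MeasurableEquiv.piFinSuccAbove (fun _ : Fin 3 => ℝ) c) ⁻¹' T) := by
    ext x
    rfl
  rw [h1, (PiLp.volume_preserving_ofLp (Fin 3)).measure_preimage
    ((MeasurableEquiv.piFinSuccAbove (fun _ : Fin 3 => ℝ) c).measurable hT).nullMeasurableSet,
    (volume_preserving_piFinSuccAbove (fun _ : Fin 3 => ℝ) c).measure_preimage hT.nullMeasurableSet,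
    Measure.volume_eq_prod, Measure.prod_apply hT]
  rfl

/-- the part of the ball beyond the plane `x_c = 1` -/
theorem vol_cap (c : Fin 3) {r : ℝ} (hr : 1 ≤ r) :
    volume {x : E | 1 < x c ∧ x c ^ 2 + (x (c.succAbove 0) ^ 2 + x (c.succAbove 1) ^ 2) ≤ r ^ 2} ≤
      ENNReal.ofReal (Real.pi * ((r - 1) ^ 2 * (2 * r + 1) / 3)) := by
  have hT : MeasurableSet {z : ℝ × (Fin 2 → ℝ) | 1 < z.1 ∧ z.1 ^ 2 + (z.2 0 ^ 2 + z.2 1 ^ 2) ≤ r ^ 2} := by
    have q1 : MeasurableSet {z : ℝ × (Fin 2 → ℝ) | 1 < z.1} := measurableSet_lt measurable_const measurable_fst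
    have q2 : MeasurableSet {z : ℝ × (Fin 2 → ℝ) | z.1 ^ 2 + (z.2 0 ^ 2 + z.2 1 ^ 2) ≤ r ^ 2} :=
      measurableSet_le (by fun_prop) measurable_const
    exact q1.inter q2
  have h1 := vol_prod c hT
  have e1 : {x : E | 1 < x c ∧ x c ^ 2 + (x (c.succAbove 0) ^ 2 + x (c.succAbove 1) ^ 2) ≤ r ^ 2} =
      {x : E | (x c, fun j : Fin 2 => x (c.succAbove j)) ∈
        {z : ℝ × (Fin 2 → ℝ) | 1 < z.1 ∧ z.1 ^ 2 + (z.2 0 ^ 2 + z.2 1 ^ 2) ≤ r ^ 2}} := rfl
  rw [e1, h1]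
  have h2 : ∀ t : ℝ, volume {y : Fin 2 → ℝ | (t, y) ∈ {z : ℝ × (Fin 2 → ℝ) | 1 < z.1 ∧ z.1 ^ 2 + (z.2 0 ^ 2 + z.2 1 ^ 2) ≤ r ^ 2}} ≤
      (Ioc 1 r).indicator (fun t => ENNReal.ofReal (Real.pi * (r ^ 2 - t ^ 2))) t := by
    intro t
    by_cases ht : t ∈ Ioc 1 r
    · rw [indicator_of_mem ht]
      have ht2 : 0 ≤ r ^ 2 - t ^ 2 := by nlinarith [ht.1, ht.2]
      rw [← vol_disc ht2]
      refine measure_mono ?_
      rintro y ⟨_, hy⟩
      have hy' : t ^ 2 + (y 0 ^ 2 + y 1 ^ 2) ≤ r ^ 2 := hy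
      show y 0 ^ 2 + y 1 ^ 2 ≤ r ^ 2 - t ^ 2
      linarith
    · rw [indicator_of_notMem ht]
      have : {y : Fin 2 → ℝ | (t, y) ∈ {z : ℝ × (Fin 2 → ℝ) | 1 < z.1 ∧ z.1 ^ 2 + (z.2 0 ^ 2 + z.2 1 ^ 2) ≤ r ^ 2}} = ∅ := by
        rw [eq_empty_iff_forall_notMem]
        rintro y ⟨hy1, hy2⟩
        have hy1' : 1 < t := hy1
        have hy2' : t ^ 2 + (y 0 ^ 2 + y 1 ^ 2) ≤ r ^ 2 := hy2
        refine ht ⟨hy1', ?_⟩
        by_contra h
        rw [not_le] at h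
        nlinarith [sq_nonneg (y 0), sq_nonneg (y 1)]
      rw [this, measure_empty]
  refine (lintegral_mono h2).trans ?_
  rw [lintegral_indicator measurableSet_Ioc]
  have hc : Continuous fun t : ℝ => Real.pi * (r ^ 2 - t ^ 2) := by fun_prop
  rw [← ofReal_integral_eq_lintegral_ofReal]
  · refine ENNReal.ofReal_le_ofReal (le_of_eq ?_)
    rw [← intervalIntegral.integral_of_le hr, intervalIntegral.integral_const_mul,
      intervalIntegral.integral_sub (by simp) (by simp)]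
    simp
    ring
  · exact (hc.integrableOn_Icc (a := 1) (b := r)).mono_set Ioc_subset_Icc_self
  · refine (ae_restrict_iff' measurableSet_Ioc).2 (Filter.Eventually.of_forall fun t ht => ?_)
    have ht2 : 0 ≤ r ^ 2 - t ^ 2 := by nlinarith [ht.1, ht.2]
    exact mul_nonneg Real.pi_pos.le ht2

theorem vol_plane (c : Fin 3) : volume {x : E | x c = 0} = 0 := by
  have hT : MeasurableSet {z : ℝ × (Fin 2 → ℝ) | z.1 = 0} := measurable_fst (measurableSet_singleton (0 : ℝ))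
  have h1 := vol_prod c hT
  have e1 : {x : E | x c = 0} = {x : E | (x c, fun j : Fin 2 => x (c.succAbove j)) ∈ {z : ℝ × (Fin 2 → ℝ) | z.1 = 0}} := rfl
  rw [e1, h1]
  refine (lintegral_eq_zero_iff (measurable_measure_prodMk_left hT)).2 ?_
  have : {(0 : ℝ)}ᶜ ∈ ae (volume : Measure ℝ) := by
    rw [mem_ae_iff, compl_compl]
    exact Real.volume_singleton
  refine Filter.mem_of_superset this fun t ht => ?_
  have ht' : t ≠ 0 := ht
  show volume {y : Fin 2 → ℝ | (t, y) ∈ {z : ℝ × (Fin 2 → ℝ) | z.1 = 0}} = 0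
  have : {y : Fin 2 → ℝ | (t, y) ∈ {z : ℝ × (Fin 2 → ℝ) | z.1 = 0}} = ∅ := by
    rw [eq_empty_iff_forall_notMem]
    exact fun y hy => ht' hy
  rw [this, measure_empty]

/-- the coordinates `≥ 0` of a symmetric set are at most a half of it -/
theorem le_half' {i : Fin 3} {S : Set E} (hSm : MeasurableSet S) (hS : ∀ x ∈ S, refl i 0 x ∈ S) :
    2 * volume (S ∩ {x | 0 ≤ x i}) ≤ volume S := by
  refine le_trans (mul_le_mul' le_rfl ?_) (le_half hSm hS)
  have : S ∩ {x | 0 ≤ x i} ⊆ (S ∩ {x | 0 < x i}) ∪ {x : E | x i = 0} := by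
    rintro x ⟨hx, h⟩
    have h' : 0 ≤ x i := h
    rcases h'.eq_or_lt with h2 | h2
    · exact Or.inr h2.symm
    · exact Or.inl ⟨hx, h2⟩
  refine (measure_mono this).trans ((measure_union_le _ _).trans ?_)
  rw [vol_plane, add_zero]

/-- a quarter of the part of the ball beyond the plane `x_c = 1` -/
theorem vol_cap4 (c : Fin 3) {r : ℝ} (hr : 1 ≤ r) :
    4 * volume ({x : E | 1 < x c ∧ x c ^ 2 + (x (c.succAbove 0) ^ 2 + x (c.succAbove 1) ^ 2) ≤ r ^ 2} ∩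
      {x | 0 ≤ x (c.succAbove 0)} ∩ {x | 0 ≤ x (c.succAbove 1)}) ≤
      ENNReal.ofReal (Real.pi * ((r - 1) ^ 2 * (2 * r + 1) / 3)) := by
  have hn1 : c ≠ c.succAbove 0 := (Fin.succAbove_ne c 0).symm
  have hn2 : c ≠ c.succAbove 1 := (Fin.succAbove_ne c 1).symm
  have hn3 : c.succAbove 1 ≠ c.succAbove 0 := fun h => by
    have := Fin.succAbove_right_injective h
    exact absurd this (by decide)
  have hm : MeasurableSet {x : E | 1 < x c ∧ x c ^ 2 + (x (c.succAbove 0) ^ 2 + x (c.succAbove 1) ^ 2) ≤ r ^ 2} := by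
    have q1 : MeasurableSet {x : E | 1 < x c} := measurableSet_lt measurable_const (meas_coord c)
    have q2 : MeasurableSet {x : E | x c ^ 2 + (x (c.succAbove 0) ^ 2 + x (c.succAbove 1) ^ 2) ≤ r ^ 2} :=
      measurableSet_le (((meas_coord _).pow_const 2).add (((meas_coord _).pow_const 2).add ((meas_coord _).pow_const 2)))
        measurable_const
    exact q1.inter q2
  have hm1 : MeasurableSet {x : E | 0 ≤ x (c.succAbove 0)} := measurableSet_le measurable_const (meas_coord _)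
  have h1 := le_half' (i := c.succAbove 0) hm fun x hx => by
    obtain ⟨h2, h3⟩ := hx
    refine ⟨?_, ?_⟩
    · rw [refl_ne hn1]; exact h2
    · rw [refl_same, refl_ne hn3, refl_ne hn1]
      linarith [sq (0 - x (c.succAbove 0)), sq (x (c.succAbove 0))]
  have h2 := le_half' (i := c.succAbove 1) (hm.inter hm1) fun x hx => by
    obtain ⟨⟨h2, h3⟩, h4⟩ := hx
    refine ⟨⟨?_, ?_⟩, ?_⟩
    · rw [refl_ne hn2]; exact h2
    · rw [refl_same, refl_ne hn3.symm, refl_ne hn2]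
      linarith [sq (0 - x (c.succAbove 1)), sq (x (c.succAbove 1))]
    · show 0 ≤ refl (c.succAbove 1) 0 x (c.succAbove 0)
      rw [refl_ne hn3.symm]
      exact h4
  refine le_trans ?_ (vol_cap c hr)
  refine le_trans ?_ h1
  refine le_trans ?_ (mul_le_mul' (le_refl (2 : ENNReal)) h2)
  rw [← mul_assoc]
  norm_num

/-- the intersection of the ball of radius `r` with a product of slabs -/
theorem ball_slabs_r {r : ℝ} (hr : 1 ≤ r) {a : Fin 3 → ℝ} (ha : ∀ i, 0 ≤ a i ∧ a i ≤ 1) :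
    ENNReal.ofReal (Real.pi * 4 / 3 * r ^ 3) ≤
      8 * volume (closedBall (0 : E) r ∩ slab 0 (a 0) ∩ slab 1 (a 1) ∩ slab 2 (a 2)) +
        6 * ENNReal.ofReal (Real.pi * ((r - 1) ^ 2 * (2 * r + 1) / 3)) := by
  have hr0 : 0 ≤ r := by linarith
  have hB : MeasurableSet (closedBall (0 : E) r) := measurableSet_closedBall
  have hp : ∀ i : Fin 3, MeasurableSet {x : E | 0 ≤ x i} := fun i => measurableSet_le measurable_const (meas_coord i)
  have h0 : volume (closedBall (0 : E) r) = ENNReal.ofReal (Real.pi * 4 / 3 * r ^ 3) := by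
    rw [EuclideanSpace.volume_closedBall_fin_three, ← ENNReal.ofReal_pow hr0, mul_comm,
      ← ENNReal.ofReal_mul (by positivity)]
  have h1 : volume (closedBall (0 : E) r) ≤ 2 * volume (closedBall (0 : E) r ∩ {x | 0 ≤ x 0}) := by
    refine half_le hB fun x hx => ?_
    rw [mem_ballr hr0] at hx ⊢
    rw [refl_same, refl_ne (by decide), refl_ne (by decide)]
    linarith [sq (0 - x 0), sq (x 0)]
  have h2 : volume (closedBall (0 : E) r ∩ {x | 0 ≤ x 0}) ≤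
      2 * volume (closedBall (0 : E) r ∩ {x | 0 ≤ x 0} ∩ {x | 0 ≤ x 1}) := by
    refine half_le (hB.inter (hp 0)) fun x hx => ⟨?_, ?_⟩
    · have := hx.1
      rw [mem_ballr hr0] at this ⊢
      rw [refl_same, refl_ne (by decide), refl_ne (by decide)]
      linarith [sq (0 - x 1), sq (x 1)]
    · show 0 ≤ refl 1 0 x 0
      rw [refl_ne (by decide)]
      exact hx.2
  have h3 : volume (closedBall (0 : E) r ∩ {x | 0 ≤ x 0} ∩ {x | 0 ≤ x 1}) ≤
      2 * volume (closedBall (0 : E) r ∩ {x | 0 ≤ x 0} ∩ {x | 0 ≤ x 1} ∩ {x | 0 ≤ x 2}) := by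
    refine half_le ((hB.inter (hp 0)).inter (hp 1)) fun x hx => ⟨⟨?_, ?_⟩, ?_⟩
    · have := hx.1.1
      rw [mem_ballr hr0] at this ⊢
      rw [refl_same, refl_ne (by decide), refl_ne (by decide)]
      linarith [sq (0 - x 2), sq (x 2)]
    · show 0 ≤ refl 2 0 x 0
      rw [refl_ne (by decide)]
      exact hx.1.2
    · show 0 ≤ refl 2 0 x 1
      rw [refl_ne (by decide)]
      exact hx.2
  set C : Fin 3 → Set E := fun c => {x : E | 1 < x c ∧ x c ^ 2 + (x (c.succAbove 0) ^ 2 + x (c.succAbove 1) ^ 2) ≤ r ^ 2} ∩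
      {x | 0 ≤ x (c.succAbove 0)} ∩ {x | 0 ≤ x (c.succAbove 1)} with hC
  have h4 : closedBall (0 : E) r ∩ {x | 0 ≤ x 0} ∩ {x | 0 ≤ x 1} ∩ {x | 0 ≤ x 2} ⊆
      (closedBall (0 : E) r ∩ slab 0 0 ∩ slab 1 0 ∩ slab 2 0) ∪ (C 0 ∪ (C 1 ∪ C 2)) := by
    rintro x ⟨⟨⟨hx, h5⟩, h6⟩, h7⟩
    have h5' : 0 ≤ x 0 := h5
    have h6' : 0 ≤ x 1 := h6
    have h7' : 0 ≤ x 2 := h7
    have hx' := (mem_ballr hr0 x).1 hx
    by_cases g0 : x 0 ≤ 1
    · by_cases g1 : x 1 ≤ 1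
      · by_cases g2 : x 2 ≤ 1
        · left
          refine ⟨⟨⟨hx, ?_, ?_⟩, ?_, ?_⟩, ?_, ?_⟩ <;> simp only [neg_zero, sub_zero] <;> assumption
        · right; right; right
          rw [not_le] at g2
          refine ⟨⟨⟨g2, ?_⟩, h5'⟩, h6'⟩
          show x 2 ^ 2 + (x 0 ^ 2 + x 1 ^ 2) ≤ r ^ 2
          linarith
      · right; right; left
        rw [not_le] at g1
        refine ⟨⟨⟨g1, ?_⟩, h5'⟩, h7'⟩
        show x 1 ^ 2 + (x 0 ^ 2 + x 2 ^ 2) ≤ r ^ 2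
        linarith
    · right; left
      rw [not_le] at g0
      refine ⟨⟨⟨g0, ?_⟩, h6'⟩, h7'⟩
      show x 0 ^ 2 + (x 1 ^ 2 + x 2 ^ 2) ≤ r ^ 2
      linarith
  have h5 : volume (closedBall (0 : E) r ∩ slab 0 0 ∩ slab 1 0 ∩ slab 2 0) ≤
      volume (closedBall (0 : E) r ∩ slab 0 (a 0) ∩ slab 1 0 ∩ slab 2 0) := by
    have e1 : ∀ A : Set E, closedBall (0 : E) r ∩ A ∩ slab 1 0 ∩ slab 2 0 =
        (closedBall (0 : E) r ∩ slab 1 0 ∩ slab 2 0) ∩ A := by
      intro A; ext x; simp only [mem_inter_iff]; tauto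
    rw [e1, e1]
    refine slab_le (ha 0).1 (ha 0).2 ((hB.inter (meas_slab _ _)).inter (meas_slab _ _)) fun x hx y hy hyj => ?_
    have y1 : y 1 = x 1 := hyj 1 (by decide)
    have y2 : y 2 = x 2 := hyj 2 (by decide)
    obtain ⟨⟨hx1, hx2⟩, hx3⟩ := hx
    refine ⟨⟨?_, ?_⟩, ?_⟩
    · rw [mem_ballr hr0] at hx1 ⊢
      rw [y1, y2]
      linarith [sq_le_sq.2 hy]
    · unfold slab at hx2 ⊢
      simpa only [mem_ofPred_eq, y1] using hx2
    · unfold slab at hx3 ⊢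
      simpa only [mem_ofPred_eq, y2] using hx3
  have h6 : volume (closedBall (0 : E) r ∩ slab 0 (a 0) ∩ slab 1 0 ∩ slab 2 0) ≤
      volume (closedBall (0 : E) r ∩ slab 0 (a 0) ∩ slab 1 (a 1) ∩ slab 2 0) := by
    have e1 : ∀ A : Set E, closedBall (0 : E) r ∩ slab 0 (a 0) ∩ A ∩ slab 2 0 =
        (closedBall (0 : E) r ∩ slab 0 (a 0) ∩ slab 2 0) ∩ A := by
      intro A; ext x; simp only [mem_inter_iff]; tauto
    rw [e1, e1]
    refine slab_le (ha 1).1 (ha 1).2 ((hB.inter (meas_slab _ _)).inter (meas_slab _ _)) fun x hx y hy hyj => ?_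
    have y1 : y 0 = x 0 := hyj 0 (by decide)
    have y2 : y 2 = x 2 := hyj 2 (by decide)
    obtain ⟨⟨hx1, hx2⟩, hx3⟩ := hx
    refine ⟨⟨?_, ?_⟩, ?_⟩
    · rw [mem_ballr hr0] at hx1 ⊢
      rw [y1, y2]
      linarith [sq_le_sq.2 hy]
    · unfold slab at hx2 ⊢
      simpa only [mem_ofPred_eq, y1] using hx2
    · unfold slab at hx3 ⊢
      simpa only [mem_ofPred_eq, y2] using hx3
  have h7 : volume (closedBall (0 : E) r ∩ slab 0 (a 0) ∩ slab 1 (a 1) ∩ slab 2 0) ≤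
      volume (closedBall (0 : E) r ∩ slab 0 (a 0) ∩ slab 1 (a 1) ∩ slab 2 (a 2)) := by
    refine slab_le (ha 2).1 (ha 2).2 ((hB.inter (meas_slab _ _)).inter (meas_slab _ _)) fun x hx y hy hyj => ?_
    have y1 : y 0 = x 0 := hyj 0 (by decide)
    have y2 : y 1 = x 1 := hyj 1 (by decide)
    obtain ⟨⟨hx1, hx2⟩, hx3⟩ := hx
    refine ⟨⟨?_, ?_⟩, ?_⟩
    · rw [mem_ballr hr0] at hx1 ⊢
      rw [y1, y2]
      linarith [sq_le_sq.2 hy]
    · unfold slab at hx2 ⊢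
      simpa only [mem_ofPred_eq, y1] using hx2
    · unfold slab at hx3 ⊢
      simpa only [mem_ofPred_eq, y2] using hx3
  have h8 := h5.trans (h6.trans h7)
  have h9 : volume (closedBall (0 : E) r ∩ {x | 0 ≤ x 0} ∩ {x | 0 ≤ x 1} ∩ {x | 0 ≤ x 2}) ≤
      volume (closedBall (0 : E) r ∩ slab 0 (a 0) ∩ slab 1 (a 1) ∩ slab 2 (a 2)) +
        (volume (C 0) + (volume (C 1) + volume (C 2))) := by
    refine (measure_mono h4).trans ((measure_union_le _ _).trans ?_)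
    refine add_le_add h8 ((measure_union_le _ _).trans ?_)
    exact add_le_add le_rfl (measure_union_le _ _)
  have hc : ∀ c, 8 * volume (C c) ≤ 2 * ENNReal.ofReal (Real.pi * ((r - 1) ^ 2 * (2 * r + 1) / 3)) := by
    intro c
    have := mul_le_mul' (le_refl (2 : ENNReal)) (vol_cap4 c hr)
    rw [← mul_assoc] at this
    norm_num at this
    exact this
  calc ENNReal.ofReal (Real.pi * 4 / 3 * r ^ 3) = volume (closedBall (0 : E) r) := h0.symm
    _ ≤ 2 * (2 * (2 * volume (closedBall (0 : E) r ∩ {x | 0 ≤ x 0} ∩ {x | 0 ≤ x 1} ∩ {x | 0 ≤ x 2}))) :=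
        h1.trans (by gcongr; exact h2.trans (by gcongr))
    _ ≤ 2 * (2 * (2 * (volume (closedBall (0 : E) r ∩ slab 0 (a 0) ∩ slab 1 (a 1) ∩ slab 2 (a 2)) +
        (volume (C 0) + (volume (C 1) + volume (C 2)))))) := by gcongr
    _ = 8 * volume (closedBall (0 : E) r ∩ slab 0 (a 0) ∩ slab 1 (a 1) ∩ slab 2 (a 2)) +
        (8 * volume (C 0) + 8 * volume (C 1) + 8 * volume (C 2)) := by ring
    _ ≤ 8 * volume (closedBall (0 : E) r ∩ slab 0 (a 0) ∩ slab 1 (a 1) ∩ slab 2 (a 2)) +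
        (2 * ENNReal.ofReal (Real.pi * ((r - 1) ^ 2 * (2 * r + 1) / 3)) +
        2 * ENNReal.ofReal (Real.pi * ((r - 1) ^ 2 * (2 * r + 1) / 3)) +
        2 * ENNReal.ofReal (Real.pi * ((r - 1) ^ 2 * (2 * r + 1) / 3))) := by
        exact add_le_add le_rfl (add_le_add (add_le_add (hc 0) (hc 1)) (hc 2))
    _ = _ := by ring

end Pool.Agent.J6H21.UC
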